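import Pool.Agent.TH735.BF.Reduct

/-!
Isomorphisms between closures preserve closures; automorphisms of structures on `ℂ` whose
relations hold only between elements that lie in each other's closure.
-/

set_option autoImplicit false

namespace Pool.Agent.TH735.BF

open Set Filter Topology Complex Metric Cardinal
open Pool.Agent.TH735.QM Pool.Agent.TH735.FO

theorem Cl.trans' {m : ℕ → ℕ} {F : (k : ℕ) → (Fin (m k) → ℂ) → ℂ → ℂ} {S S' : Set ℂ}
    (h : ∀ z ∈ S', Cl F S z) {z : ℂ} (hz : Cl F S' z) : Cl F S z := by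
  induction hz with
  | base hz => exact h _ hz
  | zero _ hne hz ih => exact Cl.zero ih hne hz

theorem cl_map {m : ℕ → ℕ} {F : (k : ℕ) → (Fin (m k) → ℂ) → ℂ → ℂ} {E : ℂ → Prop} {f : ℂ → ℂ}
    (h0 : ∀ k (y : Fin (m k) → ℂ) z, (∀ a, E (y a)) → E z → F k y z = 0 →
      F k (fun a => f (y a)) (f z) = 0)
    (h1 : ∀ k (y : Fin (m k) → ℂ), (∀ a, E (y a)) → (∃ x, F k y x ≠ 0) →
      ∃ x, F k (fun a => f (y a)) x ≠ 0) {T T' : Set ℂ}
    (hE : ∀ z, Cl F T z → E z) (hT : ∀ z ∈ T, Cl F T' (f z)) {z : ℂ} (hz : Cl F T z) :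
    Cl F T' (f z) := by
  induction hz with
  | base hz => exact hT _ hz
  | zero hy hne hz ih =>
    exact Cl.zero ih (h1 _ _ (fun a => hE _ (hy a)) hne)
      (h0 _ _ _ (fun a => hE _ (hy a)) (hE _ (Cl.zero hy hne hz)) hz)

theorem cq_forall {m : ℕ} {F : (Fin m → ℂ) → ℂ → ℂ}
    (hF : AnalyticOnNhd ℂ (fun p : (Fin m → ℂ) × ℂ => F p.1 p.2) Set.univ) :
    CQ m {y | ∀ x, F y x = 0} := by
  intro U hU hUc γ hγ
  by_cases hne : ∃ t ∈ U, ∃ x, F (γ t) x ≠ 0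
  · obtain ⟨t₁, ht₁, x₁, hx₁⟩ := hne
    left
    refine (zeros_countableOn hUc (f := fun t => F (γ t) x₁) ?_ ⟨t₁, ht₁, hx₁⟩).mono ?_
    · intro t ht
      exact (hF (γ t, x₁) (mem_univ _)).comp (f := fun t => ((γ t, x₁) : (Fin m → ℂ) × ℂ))
        ((hγ t ht).prod analyticAt_const)
    · rintro t ⟨ht, h⟩
      exact ⟨ht, h x₁⟩
  · right
    push Not at hne
    convert countable_empty using 1
    ext t
    simp only [Set.mem_sdiff, mem_preimage, Set.mem_ofPred_eq, mem_empty_iff_false, iff_false,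
      not_and, not_not]
    exact fun ht => hne t ht

theorem cq_zero {m : ℕ} {F : (Fin m → ℂ) → ℂ → ℂ}
    (hF : AnalyticOnNhd ℂ (fun p : (Fin m → ℂ) × ℂ => F p.1 p.2) Set.univ) :
    CQ (m + 1) {v | F (fun a => v (Fin.castSucc a)) (v (Fin.last m)) = 0} := by
  apply CQ.zero
  intro v _
  have h1 : ∀ i : Fin (m + 1), AnalyticAt ℂ (fun v : Fin (m + 1) → ℂ => v i) v := fun i =>
    (ContinuousLinearMap.proj (R := ℂ) (φ := fun _ : Fin (m + 1) => ℂ) i).analyticAt v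
  have h2 : AnalyticAt ℂ (fun v : Fin (m + 1) → ℂ =>
      ((fun a => v (Fin.castSucc a), v (Fin.last m)) : (Fin m → ℂ) × ℂ)) v :=
    (analyticAt_pi_iff.2 fun a => h1 _).prod (h1 _)
  exact (hF _ (mem_univ _)).comp (f := fun v : Fin (m + 1) → ℂ =>
      ((fun a => v (Fin.castSucc a), v (Fin.last m)) : (Fin m → ℂ) × ℂ)) h2

/-- the arities of the relations, the zero relations and the degeneracy relations -/
def ar {τ : Type} (n : τ → ℕ) (m : ℕ → ℕ) : τ ⊕ (ℕ ⊕ ℕ) → ℕ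
  | .inl j => n j
  | .inr (.inl k) => m k + 1
  | .inr (.inr k) => m k

/-- the relations, the zero relations and the degeneracy relations -/
def rl {τ : Type} {n : τ → ℕ} {m : ℕ → ℕ} (F : (k : ℕ) → (Fin (m k) → ℂ) → ℂ → ℂ)
    (R : (j : τ) → Set (Fin (n j) → ℂ)) : (j : τ ⊕ (ℕ ⊕ ℕ)) → Set (Fin (ar n m j) → ℂ)
  | .inl j => R j
  | .inr (.inl k) => {v | F k (fun a => v (Fin.castSucc a)) (v (Fin.last (m k))) = 0}
  | .inr (.inr k) => {y | ∀ x, F k y x = 0}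

theorem closures_fun {m : ℕ → ℕ} {F : (k : ℕ) → (Fin (m k) → ℂ) → ℂ → ℂ}
    (hF : ∀ k, AnalyticOnNhd ℂ (fun p : (Fin (m k) → ℂ) × ℂ => F k p.1 p.2) Set.univ)
    (hord : ∀ k, FiniteOrder (F k)) {τ : Type} [Countable τ] {n : τ → ℕ}
    {R : (j : τ) → Set (Fin (n j) → ℂ)} (hR : ∀ j, CQ (n j) (R j)) {A : Set ℂ}
    (hA : A.Countable) :
    ∃ B : Set ℂ, B.Countable ∧ ∀ t t', t ∉ B → t' ∉ B → ∃ f f' : ℂ → ℂ,
      (∀ z, Cl F (A ∪ {t}) z → Cl F (A ∪ {t'}) (f z) ∧ f' (f z) = z) ∧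
      (∀ z, Cl F (A ∪ {t'}) z → Cl F (A ∪ {t}) (f' z) ∧ f (f' z) = z) ∧
      (∀ z, Cl F A z → f z = z ∧ f' z = z) ∧ f t = t' ∧ f' t' = t ∧
      (∀ T T' : Set ℂ, (∀ z, Cl F T z → Cl F (A ∪ {t}) z) → (∀ z ∈ T, Cl F T' (f z)) →
        ∀ z, Cl F T z → Cl F T' (f z)) ∧
      (∀ T T' : Set ℂ, (∀ z, Cl F T z → Cl F (A ∪ {t'}) z) → (∀ z ∈ T, Cl F T' (f' z)) →
        ∀ z, Cl F T z → Cl F T' (f' z)) ∧
      ∀ j, ∀ v : Fin (n j) → ℂ, (∀ a, Cl F (A ∪ {t}) (v a)) →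
        (v ∈ R j ↔ (fun a => f (v a)) ∈ R j) := by
  classical
  have hR' : ∀ j, CQ (ar n m j) (rl F R j) := by
    rintro (j | k | k)
    · exact hR j
    · exact cq_zero (hF k)
    · exact cq_forall (hF k)
  obtain ⟨B, hB, h⟩ := closures (d := 0) (γ := fun t _ => t) hF hord hR' hA isOpen_univ
    isPreconnected_univ (fun t _ => analyticAt_pi_iff.2 fun _ => analyticAt_id)
  refine ⟨B, hB, ?_⟩
  intro t t' ht ht'
  obtain ⟨σ₀, h1, h2, h3⟩ := h t (mem_univ _) t' (mem_univ _) ht ht'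
  have hrg : ∀ t z, Cl F (A ∪ {t}) z ↔ Cl F (A ∪ range (fun _ : Fin (0 + 1) => t)) z := by
    intro t z
    rw [range_const]
  set σ : {z // Cl F (A ∪ {t}) z} ≃ {z // Cl F (A ∪ {t'}) z} :=
    ((Equiv.subtypeEquivRight (hrg t)).trans σ₀).trans (Equiv.subtypeEquivRight (hrg t')).symm
    with hσ
  have hσ0 : ∀ z, (σ z : ℂ) = σ₀ ⟨z.1, (hrg t z.1).1 z.2⟩ := fun z => rfl
  have h1' : (σ ⟨t, Cl.base (Or.inr rfl)⟩ : ℂ) = t' := h1 0
  set f : ℂ → ℂ := fun z => if h : Cl F (A ∪ {t}) z then σ ⟨z, h⟩ else z with hf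
  set f' : ℂ → ℂ := fun z => if h : Cl F (A ∪ {t'}) z then σ.symm ⟨z, h⟩ else z with hf'
  have hfe : ∀ z (h : Cl F (A ∪ {t}) z), f z = σ ⟨z, h⟩ := fun z h => dif_pos h
  have hfe' : ∀ z (h : Cl F (A ∪ {t'}) z), f' z = σ.symm ⟨z, h⟩ := fun z h => dif_pos h
  have a1 : ∀ z, Cl F (A ∪ {t}) z → Cl F (A ∪ {t'}) (f z) ∧ f' (f z) = z := by
    intro z hz
    have hz' : Cl F (A ∪ {t'}) (f z) := by
      rw [hfe z hz]
      exact (σ ⟨z, hz⟩).2
    refine ⟨hz', ?_⟩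
    rw [hfe' _ hz']
    have : (⟨f z, hz'⟩ : {z // Cl F (A ∪ {t'}) z}) = σ ⟨z, hz⟩ := Subtype.ext (hfe z hz)
    rw [this, Equiv.symm_apply_apply]
  have a2 : ∀ z, Cl F (A ∪ {t'}) z → Cl F (A ∪ {t}) (f' z) ∧ f (f' z) = z := by
    intro z hz
    have hz' : Cl F (A ∪ {t}) (f' z) := by
      rw [hfe' z hz]
      exact (σ.symm ⟨z, hz⟩).2
    refine ⟨hz', ?_⟩
    rw [hfe _ hz']
    have : (⟨f' z, hz'⟩ : {z // Cl F (A ∪ {t}) z}) = σ.symm ⟨z, hz⟩ := Subtype.ext (hfe' z hz)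
    rw [this, Equiv.apply_symm_apply]
  have a3 : ∀ j, ∀ v : Fin (ar n m j) → ℂ, (∀ a, Cl F (A ∪ {t}) (v a)) →
      (v ∈ rl F R j ↔ (fun a => f (v a)) ∈ rl F R j) := by
    intro j v hv
    have h4 := h3 j (fun a => ⟨v a, (hrg t _).1 (hv a)⟩)
    have h5 : (fun a => f (v a)) = fun a => (σ ⟨v a, hv a⟩ : ℂ) := funext fun a => hfe _ _
    rw [h5]
    exact h4
  have a3' : ∀ j, ∀ v : Fin (ar n m j) → ℂ, (∀ a, Cl F (A ∪ {t'}) (v a)) →
      (v ∈ rl F R j ↔ (fun a => f' (v a)) ∈ rl F R j) := by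
    intro j v hv
    have h4 := a3 j (fun a => f' (v a)) (fun a => (a2 _ (hv a)).1)
    have h5 : (fun a => f (f' (v a))) = v := funext fun a => (a2 _ (hv a)).2
    rw [h5] at h4
    exact h4.symm
  have key : ∀ (E : ℂ → Prop) (g : ℂ → ℂ), (∀ j, ∀ v : Fin (ar n m j) → ℂ, (∀ a, E (v a)) →
      (v ∈ rl F R j ↔ (fun a => g (v a)) ∈ rl F R j)) →
      ∀ T T' : Set ℂ, (∀ z, Cl F T z → E z) → (∀ z ∈ T, Cl F T' (g z)) →
        ∀ z, Cl F T z → Cl F T' (g z) := by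
    intro E g hg T T' hT hT' z hz
    refine cl_map (E := E) ?_ ?_ hT hT' hz
    · intro k y z hy hz h0
      have h4 := hg (.inr (.inl k)) (Fin.snoc (α := fun _ => ℂ) y z) (by
        intro a
        refine Fin.lastCases ?_ (fun i => ?_) a
        · rw [Fin.snoc_last]
          exact hz
        · rw [Fin.snoc_castSucc]
          exact hy i)
      have h5 : (Fin.snoc (α := fun _ => ℂ) y z : Fin (m k + 1) → ℂ) ∈
          {v : Fin (m k + 1) → ℂ | F k (fun a => v (Fin.castSucc a)) (v (Fin.last (m k))) = 0} := by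
        simp only [Set.mem_ofPred_eq, Fin.snoc_castSucc, Fin.snoc_last]
        exact h0
      have h6 := h4.1 h5
      have h7 : F k (fun a => g ((Fin.snoc (α := fun _ => ℂ) y z : Fin (m k + 1) → ℂ)
          (Fin.castSucc a))) (g ((Fin.snoc (α := fun _ => ℂ) y z : Fin (m k + 1) → ℂ)
          (Fin.last (m k)))) = 0 := h6
      simp only [Fin.snoc_castSucc, Fin.snoc_last] at h7
      exact h7
    · intro k y hy hne
      by_contra hcon
      push Not at hcon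
      have h4 := hg (.inr (.inr k)) y hy
      have h5 : y ∈ {y : Fin (m k) → ℂ | ∀ x, F k y x = 0} := h4.2 hcon
      obtain ⟨x, hx⟩ := hne
      exact hx (h5 x)
  refine ⟨f, f', a1, a2, ?_, ?_, ?_, key _ f a3, key _ f' a3', fun j v hv => a3 (.inl j) v hv⟩
  · intro z hz
    have h4 : f z = z := by
      rw [hfe z (hz.mono subset_union_left)]
      exact h2 z hz
    refine ⟨h4, ?_⟩
    have h5 := (a1 z (hz.mono subset_union_left)).2
    rwa [h4] at h5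
  · rw [hfe t (Cl.base (Or.inr rfl))]
    exact h1'
  · have h5 := (a1 t (Cl.base (Or.inr rfl))).2
    rw [hfe t (Cl.base (Or.inr rfl)), h1'] at h5
    exact h5

/-- any two coordinates outside of the closure of the empty set lie in each other's closure -/
def Blocked {m : ℕ → ℕ} (F : (k : ℕ) → (Fin (m k) → ℂ) → ℂ → ℂ) {n : ℕ} (v : Fin n → ℂ) : Prop :=
  ∀ a b, Cl F ∅ (v a) ∨ Cl F ∅ (v b) ∨ Cl F {v a} (v b)

theorem blocked_auto {m : ℕ → ℕ} {F : (k : ℕ) → (Fin (m k) → ℂ) → ℂ → ℂ}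
    (hF : ∀ k, AnalyticOnNhd ℂ (fun p : (Fin (m k) → ℂ) × ℂ => F k p.1 p.2) Set.univ)
    (hord : ∀ k, FiniteOrder (F k)) {τ : Type} [Countable τ] {n : τ → ℕ}
    {R : (j : τ) → Set (Fin (n j) → ℂ)} (hR : ∀ j, CQ (n j) (R j)) {A : Set ℂ}
    (hA : A.Countable) :
    ∃ B : Set ℂ, B.Countable ∧ ∀ t t', t ∉ B → t' ∉ B → ∃ σ : Equiv.Perm ℂ,
      (∀ a ∈ A, σ a = a) ∧ σ t = t' ∧
      (∀ (n : ℕ) (v : Fin n → ℂ), Blocked F v ↔ Blocked F fun a => σ (v a)) ∧
      ∀ j, ∀ v : Fin (n j) → ℂ, Blocked F v → (v ∈ R j ↔ (fun a => σ (v a)) ∈ R j) := by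
  obtain ⟨B, hB, hmain⟩ := closures_fun hF hord hR hA
  set K : Set ℂ := {z | Cl F A z} with hK
  have hKc : K.Countable := cl_countable hF hA
  refine ⟨B ∪ K, hB.union hKc, ?_⟩
  intro t t' htBK htBK'
  have ht : t ∉ B := fun h => htBK (Or.inl h)
  have ht' : t' ∉ B := fun h => htBK' (Or.inl h)
  have htK : t ∉ K := fun h => htBK (Or.inr h)
  have htK' : t' ∉ K := fun h => htBK' (Or.inr h)
  obtain ⟨f, f', p1, p2, p3, p4, p5, p6, p7, p8⟩ := hmain t t' ht ht'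
  set Sim : ℂ → ℂ → Prop := fun x y => Cl F (A ∪ {x}) y ∧ Cl F (A ∪ {y}) x with hSim
  have hSs : ∀ x y, Sim x y → Sim y x := fun x y h => ⟨h.2, h.1⟩
  have hcomp : ∀ x y z, Cl F (A ∪ {x}) y → Cl F (A ∪ {y}) z → Cl F (A ∪ {x}) z := by
    intro x y z h h'
    refine Cl.trans' ?_ h'
    rintro w (hw | hw)
    · exact Cl.base (Or.inl hw)
    · rw [mem_singleton_iff] at hw
      rw [hw]
      exact h
  have hSt : ∀ x y z, Sim x y → Sim y z → Sim x z := fun x y z h h' =>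
    ⟨hcomp _ _ _ h.1 h'.1, hcomp _ _ _ h'.2 h.2⟩
  set S : Set ℂ := {z | Sim t z} with hS
  set S' : Set ℂ := {z | Sim t' z} with hS'
  have hd : ∀ z, z ∈ S → z ∈ S' → S = S' := by
    intro z hz hz'
    ext w
    exact ⟨fun hw => hSt _ _ _ hz' (hSt _ _ _ (hSs _ _ hz) hw),
      fun hw => hSt _ _ _ hz (hSt _ _ _ (hSs _ _ hz') hw)⟩
  have hclK : ∀ (x z : ℂ), z ∈ K → Cl F (A ∪ {z}) x → x ∈ K := by
    intro x z hz hx
    refine Cl.trans' ?_ hx
    rintro w (hw | hw)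
    · exact Cl.base hw
    · rw [mem_singleton_iff] at hw
      rw [hw]
      exact hz
  have hSK : ∀ z ∈ K, z ∉ S := fun z hz h => htK (hclK t z hz h.2)
  have hSK' : ∀ z ∈ K, z ∉ S' := fun z hz h => htK' (hclK t' z hz h.2)
  -- the two maps between `S` and `S'`
  have hfS : ∀ z ∈ S, f z ∈ S' := by
    intro z hz
    refine ⟨(p1 z hz.1).1, ?_⟩
    have h1 := p6 (A ∪ {z}) (A ∪ {f z}) (fun w hw => hcomp _ _ _ hz.1 hw) (by
      rintro w (hw | hw)
      · rw [(p3 w (Cl.base hw)).1]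
        exact Cl.base (Or.inl hw)
      · rw [mem_singleton_iff] at hw
        rw [hw]
        exact Cl.base (Or.inr rfl)) t hz.2
    rwa [p4] at h1
  have hfS' : ∀ z ∈ S', f' z ∈ S := by
    intro z hz
    refine ⟨(p2 z hz.1).1, ?_⟩
    have h1 := p7 (A ∪ {z}) (A ∪ {f' z}) (fun w hw => hcomp _ _ _ hz.1 hw) (by
      rintro w (hw | hw)
      · rw [(p3 w (Cl.base hw)).2]
        exact Cl.base (Or.inl hw)
      · rw [mem_singleton_iff] at hw
        rw [hw]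
        exact Cl.base (Or.inr rfl)) t' hz.2
    rwa [p5] at h1
  have e1 : ∀ z ∈ S, f' (f z) = z := fun z hz => (p1 z hz.1).2
  have e2 : ∀ z ∈ S', f (f' z) = z := fun z hz => (p2 z hz.1).2
  set σ : Equiv.Perm ℂ := ⟨swp S S' f f', swp S' S f' f,
    swp_inv hfS hfS' e1 e2 hd, swp_inv hfS' hfS e2 e1 (fun z h h' => (hd z h' h).symm)⟩ with hσ
  set G : ℂ → ℂ → Prop := fun a b => Cl F (A ∪ {t}) a ∧ f a = b with hG
  have hKG : ∀ c ∈ K, G c c := fun c hc => ⟨Cl.mono subset_union_left hc, (p3 c hc).1⟩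
  have hGf : ∀ z ∈ S, G z (f z) := fun z hz => ⟨hz.1, rfl⟩
  have hGf' : ∀ z ∈ S', G (f' z) z := fun z hz => ⟨(p2 z hz.1).1, (p2 z hz.1).2⟩
  -- closedness
  have hempty : ∀ x, Cl F ∅ x → x ∈ K := fun x hx => Cl.mono (empty_subset _) hx
  have hclE : ∀ x, Cl F (A ∪ {t}) x → (Cl F ∅ x ↔ Cl F ∅ (f x)) := by
    intro x hx
    constructor
    · intro h
      rw [(p3 x (hempty x h)).1]
      exact h
    · intro h
      have h1 := (p1 x hx).2
      rw [(p3 _ (hempty _ h)).2] at h1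
      rwa [h1] at h
  have hclP : ∀ x y, Cl F (A ∪ {t}) x → Cl F (A ∪ {t}) y → (Cl F {x} y ↔ Cl F {f x} (f y)) := by
    intro x y hx hy
    constructor
    · intro h
      refine p6 {x} {f x} (fun w hw => Cl.trans' ?_ hw) ?_ y h
      · intro w hw
        rw [mem_singleton_iff] at hw
        rw [hw]
        exact hx
      · intro w hw
        rw [mem_singleton_iff] at hw
        rw [hw]
        exact Cl.base rfl
    · intro h
      have h1 := p7 {f x} {x} (fun w hw => Cl.trans' (by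
          intro w hw
          rw [mem_singleton_iff] at hw
          rw [hw]
          exact (p1 x hx).1) hw) (by
        intro w hw
        rw [mem_singleton_iff] at hw
        rw [hw, (p1 x hx).2]
        exact Cl.base rfl) (f y) h
      rwa [(p1 y hy).2] at h1
  have hblk : ∀ (l : ℕ) (v w : Fin l → ℂ), (∀ a, G (v a) (w a)) → (Blocked F v ↔ Blocked F w) := by
    intro l v w h
    have hw : ∀ a, w a = f (v a) := fun a => (h a).2.symm
    unfold Blocked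
    refine forall_congr' fun a => forall_congr' fun b => ?_
    rw [hw a, hw b, ← hclE _ (h a).1, ← hclE _ (h b).1, ← hclP _ _ (h a).1 (h b).1]
  have hrel : ∀ j (v w : Fin (n j) → ℂ), (∀ a, G (v a) (w a)) → (v ∈ R j ↔ w ∈ R j) := by
    intro j v w h
    have hw : w = fun a => f (v a) := funext fun a => (h a).2.symm
    rw [hw]
    exact p8 j v fun a => (h a).1
  have hguard : ∀ (l : ℕ) (v : Fin l → ℂ), Blocked F v → ∀ a b, v a ∉ K → v b ∉ K →
      (v a ∈ S ↔ v b ∈ S) ∧ (v a ∈ S' ↔ v b ∈ S') := by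
    intro l v hv a b ha hb
    have h0 : ∀ a b, v a ∉ K → v b ∉ K → Cl F (A ∪ {v a}) (v b) := by
      intro a b ha hb
      rcases hv a b with h | h | h
      · exact absurd (hempty _ h) ha
      · exact absurd (hempty _ h) hb
      · exact h.mono subset_union_right
    have h1 : Sim (v a) (v b) := ⟨h0 a b ha hb, h0 b a hb ha⟩
    exact ⟨⟨fun h => hSt _ _ _ h h1, fun h => hSt _ _ _ h (hSs _ _ h1)⟩,
      ⟨fun h => hSt _ _ _ h h1, fun h => hSt _ _ _ h (hSs _ _ h1)⟩⟩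
  -- preservation of relations all of whose elements are blocked
  have hpres : ∀ (l : ℕ) (Q : Set (Fin l → ℂ)), (∀ v ∈ Q, Blocked F v) →
      (∀ v w : Fin l → ℂ, (∀ a, G (v a) (w a)) → (v ∈ Q ↔ w ∈ Q)) →
      ∀ v, v ∈ Q ↔ (fun a => σ (v a)) ∈ Q := by
    intro l Q hQ hQG v
    constructor
    · intro hv
      exact swp_rel hSK hSK' hKG hGf hGf' hQG (fun v hv => hguard l v (hQ v hv)) hv
    · intro hv
      have h3 := swp_rel (G := fun a b => G b a) (f := f') (f' := f) hSK' hSK hKG hGf' hGf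
        (fun v w h => (hQG w v h).symm)
        (fun v hv a b ha hb => (hguard l v (hQ v hv) a b ha hb).symm) hv
      have h4 : (fun a => swp S' S f' f (σ (v a))) = v := funext fun a =>
        swp_inv hfS hfS' e1 e2 hd (v a)
      rw [h4] at h3
      exact h3
  have hB' : ∀ (l : ℕ) (v : Fin l → ℂ), Blocked F v ↔ Blocked F fun a => σ (v a) := fun l v =>
    hpres l {v | Blocked F v} (fun v hv => hv) (fun v w h => hblk l v w h) v
  refine ⟨σ, ?_, ?_, hB', ?_⟩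
  · intro a ha
    show swp S S' f f' a = a
    unfold swp
    rw [if_neg (hSK a (Cl.base ha)), if_neg (hSK' a (Cl.base ha))]
  · have htS : t ∈ S := ⟨Cl.base (Or.inr rfl), Cl.base (Or.inr rfl)⟩
    show swp S S' f f' t = t'
    unfold swp
    rw [if_pos htS, p4]
  · intro j v hv
    have h1 := hpres (n j) {v | Blocked F v ∧ v ∈ R j} (fun v hv => hv.1) (fun v w h => by
      simp only [Set.mem_ofPred_eq]
      rw [hblk _ v w h, hrel j v w h]) v
    simp only [Set.mem_ofPred_eq] at h1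
    have h2 := (hB' _ v).1 hv
    constructor
    · intro h
      exact (h1.1 ⟨hv, h⟩).2
    · intro h
      exact (h1.2 ⟨h2, h⟩).2

end Pool.Agent.TH735.BF
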