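import Mathlib

/-!
Chains meeting countably many cofinal sets.
-/

set_option autoImplicit false

namespace Pool.Agent.TH735.BF

open Set

theorem exists_chain {S : Type} (le : S → S → Prop) (hrefl : ∀ s, le s s)
    (htrans : ∀ s s' s'', le s s' → le s' s'' → le s s'') {ι : Type} [Countable ι]
    (D : ι → S → Prop) (hD : ∀ i s, ∃ s', le s s' ∧ D i s') (s₀ : S) :
    ∃ c : ℕ → S, c 0 = s₀ ∧ (∀ n N, n ≤ N → le (c n) (c N)) ∧ ∀ i, ∃ n, D i (c n) := by
  rcases isEmpty_or_nonempty ι with hι | hι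
  · exact ⟨fun _ => s₀, rfl, fun _ _ _ => hrefl _, fun i => (hι.false i).elim⟩
  obtain ⟨e, he⟩ := exists_surjective_nat ι
  choose f hf1 hf2 using hD
  set c : ℕ → S := fun n => Nat.rec s₀ (fun n s => f (e n) s) n with hc
  have hcs : ∀ n, c (n + 1) = f (e n) (c n) := fun n => rfl
  refine ⟨c, rfl, ?_, ?_⟩
  · intro n N hnN
    induction hnN with
    | refl => exact hrefl _
    | step _ ih =>
      refine htrans _ _ _ ih ?_
      rw [hcs]
      exact hf1 _ _
  · intro i
    obtain ⟨n, rfl⟩ := he i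
    exact ⟨n + 1, by rw [hcs]; exact hf2 _ _⟩

/-- finitely many cofinal upward closed conditions -/
theorem exists_all {S : Type} (le : S → S → Prop) (hrefl : ∀ s, le s s)
    (htrans : ∀ s s' s'', le s s' → le s' s'' → le s s'') {m : ℕ} (D : Fin m → S → Prop)
    (hup : ∀ a s s', le s s' → D a s → D a s') (hD : ∀ a s, ∃ s', le s s' ∧ D a s') (s₀ : S) :
    ∃ s, le s₀ s ∧ ∀ a, D a s := by
  have key : ∀ k : ℕ, ∃ s, le s₀ s ∧ ∀ a : Fin m, (a : ℕ) < k → D a s := by
    intro k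
    induction k with
    | zero => exact ⟨s₀, hrefl _, fun a ha => absurd ha (Nat.not_lt_zero _)⟩
    | succ k ih =>
      obtain ⟨s, h1, h2⟩ := ih
      by_cases hk : k < m
      · obtain ⟨s', h3, h4⟩ := hD ⟨k, hk⟩ s
        refine ⟨s', htrans _ _ _ h1 h3, ?_⟩
        intro a ha
        rcases Nat.lt_succ_iff_lt_or_eq.1 ha with h5 | h5
        · exact hup a s s' h3 (h2 a h5)
        · have : a = ⟨k, hk⟩ := Fin.ext h5
          rw [this]
          exact h4
      · exact ⟨s, h1, fun a _ => h2 a (lt_of_lt_of_le a.2 (not_lt.1 hk))⟩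
  obtain ⟨s, h1, h2⟩ := key m
  exact ⟨s, h1, fun a => h2 a a.2⟩

end Pool.Agent.TH735.BF
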