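import Pool.Agent.TH735.BF.Engine
import Pool.Agent.TH735.BF.Chain

/-!
Closures under solving equations of finite order in one unknown: along an analytic curve their
isomorphism type is constant outside of a countable set.
-/

set_option autoImplicit false

namespace Pool.Agent.TH735.BF

open Set Filter Topology Complex Metric Cardinal
open Pool.Agent.TH735.QM Pool.Agent.TH735.FO

/-- the least set containing `S` and, with `y₁, …, y_m`, all zeros of `F k y` if this function is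
not identically zero -/
inductive Cl {m : ℕ → ℕ} (F : (k : ℕ) → (Fin (m k) → ℂ) → ℂ → ℂ) (S : Set ℂ) : ℂ → Prop
  | base {z : ℂ} (hz : z ∈ S) : Cl F S z
  | zero {k : ℕ} {y : Fin (m k) → ℂ} {z : ℂ} (hy : ∀ a, Cl F S (y a)) (hne : ∃ x, F k y x ≠ 0)
      (hz : F k y z = 0) : Cl F S z

theorem Cl.mono {m : ℕ → ℕ} {F : (k : ℕ) → (Fin (m k) → ℂ) → ℂ → ℂ} {S S' : Set ℂ}
    (h : S ⊆ S') {z : ℂ} (hz : Cl F S z) : Cl F S' z := by
  induction hz with
  | base hz => exact Cl.base (h hz)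
  | zero _ hne hz ih => exact Cl.zero ih hne hz

theorem slice_diff {m : ℕ} {F : (Fin m → ℂ) → ℂ → ℂ}
    (hF : AnalyticOnNhd ℂ (fun p : (Fin m → ℂ) × ℂ => F p.1 p.2) Set.univ) (y : Fin m → ℂ) :
    Differentiable ℂ (F y) := by
  intro z
  have h1 : AnalyticAt ℂ (fun z : ℂ => ((y, z) : (Fin m → ℂ) × ℂ)) z :=
    analyticAt_const.prod analyticAt_id
  exact ((hF (y, z) (mem_univ _)).comp (f := fun z : ℂ => ((y, z) : (Fin m → ℂ) × ℂ))
    h1).differentiableAt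

theorem cl_countable {m : ℕ → ℕ} {F : (k : ℕ) → (Fin (m k) → ℂ) → ℂ → ℂ}
    (hF : ∀ k, AnalyticOnNhd ℂ (fun p : (Fin (m k) → ℂ) × ℂ => F k p.1 p.2) Set.univ)
    {S : Set ℂ} (hS : S.Countable) : {z | Cl F S z}.Countable := by
  set L : ℕ → Set ℂ := fun n => Nat.rec S (fun _ T => T ∪ ⋃ k, ⋃ y ∈ {y : Fin (m k) → ℂ |
    ∀ a, y a ∈ T}, {z | (∃ x, F k y x ≠ 0) ∧ F k y z = 0}) n with hL
  have hL0 : L 0 = S := rfl
  have hLs : ∀ n, L (n + 1) = L n ∪ ⋃ k, ⋃ y ∈ {y : Fin (m k) → ℂ |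
    ∀ a, y a ∈ L n}, {z | (∃ x, F k y x ≠ 0) ∧ F k y z = 0} := fun n => rfl
  have hLc : ∀ n, (L n).Countable := by
    intro n
    induction n with
    | zero => exact hS
    | succ n ih =>
      rw [hLs]
      refine ih.union (countable_iUnion fun k => Set.Countable.biUnion
        (countable_pi (fun _ => ih)) fun y _ => ?_)
      by_cases hne : ∃ x, F k y x ≠ 0
      · exact (zeros_countable (slice_diff (hF k) y) hne).mono fun z hz => hz.2
      · convert countable_empty using 1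
        ext z
        simp only [Set.mem_ofPred_eq, mem_empty_iff_false, iff_false, not_and]
        exact fun h => absurd h hne
  have hmono : Monotone L := by
    apply monotone_nat_of_le_succ
    intro n
    rw [hLs]
    exact subset_union_left
  refine (countable_iUnion hLc).mono ?_
  intro z hz
  simp only [Set.mem_ofPred_eq] at hz
  induction hz with
  | base hz => exact mem_iUnion.2 ⟨0, hz⟩
  | @zero k y z hy hne hz ih =>
    have ih' : ∀ a, ∃ n, y a ∈ L n := fun a => mem_iUnion.1 (ih a)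
    choose n hn using ih'
    refine mem_iUnion.2 ⟨(Finset.univ.sup n) + 1, ?_⟩
    rw [hLs]
    right
    refine mem_iUnion.2 ⟨k, mem_iUnion₂.2 ⟨y, ?_, hne, hz⟩⟩
    intro a
    exact hmono (Finset.le_sup (Finset.mem_univ a)) (hn a)

/-- coordinates and constants -/
def ev (K : Set ℂ) (x : ℕ → ℂ) : ℕ ⊕ K → ℂ := Sum.elim x (fun c => (c : ℂ))

theorem ev_an (K : Set ℂ) (p : Pc) (a : ℕ ⊕ K) : AnalyticOnNhd ℂ (fun t => ev K (p.φ t) a) p.U := by
  rcases a with i | c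
  · exact p.an i
  · exact fun t _ => analyticAt_const

theorem ev_an' (K : Set ℂ) (p : Pc) {m : ℕ} (ι : Fin m → ℕ ⊕ K) :
    AnalyticOnNhd ℂ (fun t (a : Fin m) => ev K (p.φ t) (ι a)) p.U := by
  intro t ht
  exact analyticAt_pi_iff.2 fun a => ev_an K p (ι a) t ht

theorem regG {m : ℕ} {F : (Fin m → ℂ) → ℂ → ℂ}
    (hF : AnalyticOnNhd ℂ (fun p : (Fin m → ℂ) × ℂ => F p.1 p.2) Set.univ)
    (hord : FiniteOrder F) (K : Set ℂ) (ι : Fin m → ℕ ⊕ K) :
    RegG (fun x z => F (fun a => ev K x (ι a)) z) where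
  an := by
    rintro p ⟨t, z⟩ ⟨ht, -⟩
    have h1 : AnalyticAt ℂ (fun q : ℂ × ℂ => ((fun a => ev K (p.φ q.1) (ι a), q.2) :
        (Fin m → ℂ) × ℂ)) (t, z) :=
      ((ev_an' K p ι t ht).comp (f := fun q : ℂ × ℂ => q.1) (x := (t, z)) analyticAt_fst).prod
        analyticAt_snd
    exact (hF _ (mem_univ _)).comp (f := fun q : ℂ × ℂ => ((fun a => ev K (p.φ q.1) (ι a), q.2) :
        (Fin m → ℂ) × ℂ)) (x := (t, z)) h1
  gr := by
    intro p t₀ ht₀
    obtain ⟨A, ρ, h⟩ := hord (fun a => ev K (p.φ t₀) (ι a))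
    exact ⟨A, ρ, (ev_an' K p ι t₀ ht₀).continuousAt.eventually h⟩

theorem test_rel {m : ℕ} {R : Set (Fin m → ℂ)} (hR : CQ m R) (K : Set ℂ) (ι : Fin m → ℕ ⊕ K)
    (p : Pc) : QmOn p.U {t | (fun a => ev K (p.φ t) (ι a)) ∈ R} :=
  hR p.U p.op p.conn _ (ev_an' K p ι)

theorem test_eq (K : Set ℂ) (a b : ℕ ⊕ K) (p : Pc) :
    QmOn p.U {t | ev K (p.φ t) a = ev K (p.φ t) b} := by
  have h := zeros_QmOn p.conn (f := fun t => ev K (p.φ t) a - ev K (p.φ t) b)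
    (fun t ht => (ev_an K p a t ht).sub (ev_an K p b t ht))
  refine h.congr' ?_
  intro t _
  simp only [Set.mem_ofPred_eq]
  exact sub_eq_zero

/-- The isomorphism type of the closure of a point on an analytic curve is constant outside of a
countable set. -/
theorem closures {m : ℕ → ℕ} {F : (k : ℕ) → (Fin (m k) → ℂ) → ℂ → ℂ}
    (hF : ∀ k, AnalyticOnNhd ℂ (fun p : (Fin (m k) → ℂ) × ℂ => F k p.1 p.2) Set.univ)
    (hord : ∀ k, FiniteOrder (F k)) {τ : Type} [Countable τ] {n : τ → ℕ}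
    {R : (j : τ) → Set (Fin (n j) → ℂ)} (hR : ∀ j, CQ (n j) (R j)) {A : Set ℂ} (hA : A.Countable) {U : Set ℂ} (hU : IsOpen U)
    (hUc : IsPreconnected U) {d : ℕ} {γ : ℂ → (Fin (d + 1) → ℂ)} (hγ : AnalyticOnNhd ℂ γ U) :
    ∃ B : Set ℂ, B.Countable ∧ ∀ t ∈ U, ∀ t' ∈ U, t ∉ B → t' ∉ B →
      ∃ σ : {z // Cl F (A ∪ range (γ t)) z} ≃ {z // Cl F (A ∪ range (γ t')) z},
        (∀ i, (σ ⟨γ t i, Cl.base (Or.inr ⟨i, rfl⟩)⟩ : ℂ) = γ t' i) ∧
        (∀ z, ∀ hz : Cl F A z, (σ ⟨z, hz.mono subset_union_left⟩ : ℂ) = z) ∧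
        ∀ j, ∀ v : Fin (n j) → {z // Cl F (A ∪ range (γ t)) z},
          (fun a => (v a : ℂ)) ∈ R j ↔ (fun a => (σ (v a) : ℂ)) ∈ R j := by
  rcases U.eq_empty_or_nonempty with hU0 | hU0
  · exact ⟨∅, countable_empty, fun t ht => absurd ht (by rw [hU0]; exact notMem_empty t)⟩
  set K : Set ℂ := {z | Cl F A z} with hK
  have hKc : K.Countable := cl_countable hF hA
  have hKc' : Countable K := hKc.to_subtype
  set root : Pc := ⟨U, fun t i => if h : i < d + 1 then γ t ⟨i, h⟩ else γ t 0, hU, hUc, hU0, by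
    intro i
    by_cases h : i < d + 1
    · simp only [h, dite_true]
      exact fun t ht => (analyticAt_pi_iff.1 (hγ t ht)) ⟨i, h⟩
    · simp only [h, dite_false]
      exact fun t ht => (analyticAt_pi_iff.1 (hγ t ht)) 0⟩ with hroot
  have hr1 : ∀ t i, ∃ a : Fin (d + 1), root.φ t i = γ t a := by
    intro t i
    by_cases h : i < d + 1
    · exact ⟨⟨i, h⟩, dif_pos h⟩
    · exact ⟨0, dif_neg h⟩
  have hr2 : ∀ t, ∀ i : Fin (d + 1), root.φ t i = γ t i := by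
    intro t i
    exact dif_pos i.2
  have hr0 : ∀ t ∈ root.U, ∀ i > d, root.φ t i = root.φ t 0 := by
    intro t _ i hi
    have h1 : ¬ i < d + 1 := by omega
    have h2 := hr2 t 0
    rw [Fin.val_zero] at h2
    exact (dif_neg h1).trans h2.symm
  obtain ⟨B, I, hB, hI0, hIs, hIj, hIt, hIg⟩ := engine
    (ι := Σ k : ℕ, (Fin (m k) → ℕ ⊕ K))
    (τ := (Σ j : τ, (Fin (n j) → ℕ ⊕ K)) ⊕ ((ℕ ⊕ K) × (ℕ ⊕ K))) root d hr0
    (fun i x z => F i.1 (fun a => ev K x (i.2 a)) z) (fun i => regG (hF i.1) (hord i.1) K i.2)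
    (Sum.elim (fun j x => (fun a => ev K x (j.2 a)) ∈ R j.1)
      (fun ab x => ev K x ab.1 = ev K x ab.2)) (by
      rintro (j | ab) p
      · exact test_rel (hR j.1) K j.2 p
      · exact test_eq K ab.1 ab.2 p)
  refine ⟨B, hB, ?_⟩
  -- the states
  set St : ℂ → ℂ → ℕ → (ℕ → ℂ) → (ℕ → ℂ) → Prop := fun t t' k x x' =>
    I t t' k x x' ∧ (∀ i, Cl F (A ∪ range (γ t)) (x i)) ∧ ∀ i, Cl F (A ∪ range (γ t')) (x' i)
    with hSt
  have hSts : ∀ t t' k x x', St t t' k x x' → St t' t k x' x :=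
    fun t t' k x x' h => ⟨hIs _ _ _ _ _ h.1, h.2.2, h.2.1⟩
  -- one step
  have hstep : ∀ t t', t ∉ B → t' ∉ B → ∀ k x x', St t t' k x x' → ∀ (l : ℕ)
      (ι : Fin (m l) → ℕ ⊕ K) (z : ℂ), (∃ y, F l (fun a => ev K x (ι a)) y ≠ 0) →
      F l (fun a => ev K x (ι a)) z = 0 →
      ∃ x₁ x₁', St t t' (k + 1) x₁ x₁' ∧ (∀ i, ∃ j, x₁ j = x i ∧ x₁' j = x' i) ∧ ∃ j, x₁ j = z := by
    intro t t' ht ht' k x x' hs l ι z hne hz
    obtain ⟨z', hne', hz', hI'⟩ := hIg t t' ht ht' k x x' hs.1 ⟨l, ι⟩ z hne hz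
    have hj := hIj _ _ _ _ _ hs.1
    have hj' := hIj _ _ _ _ _ (hIs _ _ _ _ _ hs.1)
    have hcl : ∀ (t : ℂ) (x : ℕ → ℂ), (∀ i, Cl F (A ∪ range (γ t)) (x i)) → ∀ c : ℕ ⊕ K,
        Cl F (A ∪ range (γ t)) (ev K x c) := by
      rintro t x hx (i | c)
      · exact hx i
      · exact c.2.mono subset_union_left
    have hupd : ∀ (t : ℂ) (x : ℕ → ℂ), (∀ i, Cl F (A ∪ range (γ t)) (x i)) → ∀ z,
        Cl F (A ∪ range (γ t)) z → ∀ i, Cl F (A ∪ range (γ t)) (Function.update x (k + 1) z i) := by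
      intro t x hx z hz i
      by_cases h : i = k + 1
      · rw [h, Function.update_self]
        exact hz
      · rw [Function.update_of_ne h]
        exact hx i
    refine ⟨Function.update x (k + 1) z, Function.update x' (k + 1) z', ⟨hI', ?_, ?_⟩, ?_,
      k + 1, Function.update_self _ _ _⟩
    · exact hupd t x hs.2.1 z (Cl.zero (fun a => hcl t x hs.2.1 (ι a)) hne hz)
    · exact hupd t' x' hs.2.2 z' (Cl.zero (fun a => hcl t' x' hs.2.2 (ι a)) hne' hz')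
    · intro i
      by_cases h : i = k + 1
      · refine ⟨0, ?_⟩
        rw [Function.update_of_ne (by omega), Function.update_of_ne (by omega), h]
        exact ⟨(hj _ (by omega)).symm, (hj' _ (by omega)).symm⟩
      · exact ⟨i, by rw [Function.update_of_ne h], by rw [Function.update_of_ne h]⟩
  -- every element of the closure can be reached
  have hreach : ∀ t t', t ∉ B → t' ∉ B → ∀ x₀ x₀' k₀, St t t' k₀ x₀ x₀' →
      (∀ i, ∃ j, x₀ j = γ t i) → ∀ z, Cl F (A ∪ range (γ t)) z →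
      ∀ k x x', St t t' k x x' → (∀ i, ∃ j, x j = x₀ i ∧ x' j = x₀' i) →
      ∃ k₁ x₁ x₁', St t t' k₁ x₁ x₁' ∧ (∀ i, ∃ j, x₁ j = x i ∧ x₁' j = x' i) ∧
        ∃ c : ℕ ⊕ K, ev K x₁ c = z := by
    intro t t' ht ht' x₀ x₀' k₀ hs₀ hγ₀ z hz
    induction hz with
    | @base z hz =>
      intro k x x' hs hle
      refine ⟨k, x, x', hs, fun i => ⟨i, rfl, rfl⟩, ?_⟩
      rcases hz with hz | ⟨i, rfl⟩
      · exact ⟨Sum.inr ⟨z, Cl.base hz⟩, rfl⟩
      · obtain ⟨j, hj⟩ := hγ₀ i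
        obtain ⟨j', hj', -⟩ := hle j
        exact ⟨Sum.inl j', hj'.trans hj⟩
    | @zero l y z hy hne hz ih =>
      intro k x x' hs hle
      obtain ⟨s, hs1, hs2⟩ := exists_all
        (S := {s : ℕ × (ℕ → ℂ) × (ℕ → ℂ) // St t t' s.1 s.2.1 s.2.2 ∧
          ∀ i, ∃ j, s.2.1 j = x₀ i ∧ s.2.2 j = x₀' i})
        (fun s s' => ∀ i, ∃ j, s'.1.2.1 j = s.1.2.1 i ∧ s'.1.2.2 j = s.1.2.2 i)
        (fun s i => ⟨i, rfl, rfl⟩)
        (fun s s' s'' h h' i => by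
          obtain ⟨j, h1, h2⟩ := h i
          obtain ⟨j', h3, h4⟩ := h' j
          exact ⟨j', h3.trans h1, h4.trans h2⟩)
        (m := m l) (fun a s => ∃ c : ℕ ⊕ K, ev K s.1.2.1 c = y a)
        (fun a s s' h => by
          rintro ⟨c | c, hc⟩
          · obtain ⟨j, h1, -⟩ := h c
            exact ⟨Sum.inl j, h1.trans hc⟩
          · exact ⟨Sum.inr c, hc⟩)
        (fun a s => by
          obtain ⟨k₁, x₁, x₁', h1, h2, h3⟩ := ih a s.1.1 s.1.2.1 s.1.2.2 s.2.1 s.2.2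
          refine ⟨⟨(k₁, x₁, x₁'), h1, ?_⟩, h2, h3⟩
          intro i
          obtain ⟨j, h4, h5⟩ := s.2.2 i
          obtain ⟨j', h6, h7⟩ := h2 j
          exact ⟨j', h6.trans h4, h7.trans h5⟩)
        ⟨(k, x, x'), hs, hle⟩
      choose c hc using hs2
      obtain ⟨⟨k₂, x₂, x₂'⟩, hs3, hs4⟩ := s
      simp only at hs1 hc hs3 hs4
      have hy' : (fun a => ev K x₂ (c a)) = y := funext hc
      obtain ⟨x₁, x₁', h1, h2, j, h3⟩ := hstep t t' ht ht' k₂ x₂ x₂' hs3 l c z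
        (by rw [hy']; exact hne) (by rw [hy']; exact hz)
      refine ⟨k₂ + 1, x₁, x₁', h1, ?_, Sum.inl j, h3⟩
      intro i
      obtain ⟨j, h4, h5⟩ := hs1 i
      obtain ⟨j', h6, h7⟩ := h2 j
      exact ⟨j', h6.trans h4, h7.trans h5⟩
  intro t htU t' htU' ht ht'
  set x₀ := root.φ t with hx₀
  set x₀' := root.φ t' with hx₀'
  have hclr : ∀ t i, Cl F (A ∪ range (γ t)) (root.φ t i) := by
    intro t i
    obtain ⟨a, ha⟩ := hr1 t i
    rw [ha]
    exact Cl.base (Or.inr ⟨a, rfl⟩)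
  have hs₀ : St t t' d x₀ x₀' := ⟨hI0 t htU t' htU', hclr t, hclr t'⟩
  have hc1 : Countable {z // Cl F (A ∪ range (γ t)) z} :=
    (cl_countable hF (hA.union (countable_range _))).to_subtype
  have hc2 : Countable {z // Cl F (A ∪ range (γ t')) z} :=
    (cl_countable hF (hA.union (countable_range _))).to_subtype
  obtain ⟨c, -, hcmono, hcD⟩ := exists_chain
    (S := {s : ℕ × (ℕ → ℂ) × (ℕ → ℂ) // St t t' s.1 s.2.1 s.2.2 ∧
      ∀ i, ∃ j, s.2.1 j = x₀ i ∧ s.2.2 j = x₀' i})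
    (fun s s' => ∀ i, ∃ j, s'.1.2.1 j = s.1.2.1 i ∧ s'.1.2.2 j = s.1.2.2 i)
    (fun s i => ⟨i, rfl, rfl⟩)
    (fun s s' s'' h h' i => by
      obtain ⟨j, h1, h2⟩ := h i
      obtain ⟨j', h3, h4⟩ := h' j
      exact ⟨j', h3.trans h1, h4.trans h2⟩)
    (ι := {z // Cl F (A ∪ range (γ t)) z} ⊕ {z // Cl F (A ∪ range (γ t')) z})
    (Sum.elim (fun z s => ∃ e : ℕ ⊕ K, ev K s.1.2.1 e = z)
      (fun z s => ∃ e : ℕ ⊕ K, ev K s.1.2.2 e = z)) (by
      rintro (z | z) s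
      · obtain ⟨k₁, x₁, x₁', h1, h2, h3⟩ := hreach t t' ht ht' x₀ x₀' d hs₀
          (fun i => ⟨i, hr2 t i⟩) z.1 z.2 s.1.1 s.1.2.1 s.1.2.2 s.2.1 s.2.2
        refine ⟨⟨(k₁, x₁, x₁'), h1, ?_⟩, h2, h3⟩
        intro i
        obtain ⟨j, h4, h5⟩ := s.2.2 i
        obtain ⟨j', h6, h7⟩ := h2 j
        exact ⟨j', h6.trans h4, h7.trans h5⟩
      · obtain ⟨k₁, x₁, x₁', h1, h2, h3⟩ := hreach t' t ht' ht x₀' x₀ d (hSts _ _ _ _ _ hs₀)
          (fun i => ⟨i, hr2 t' i⟩) z.1 z.2 s.1.1 s.1.2.2 s.1.2.1 (hSts _ _ _ _ _ s.2.1)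
          (fun i => by
            obtain ⟨j, h4, h5⟩ := s.2.2 i
            exact ⟨j, h5, h4⟩)
        refine ⟨⟨(k₁, x₁', x₁), hSts _ _ _ _ _ h1, ?_⟩, ?_, h3⟩
        · intro i
          obtain ⟨j, h4, h5⟩ := s.2.2 i
          obtain ⟨j', h6, h7⟩ := h2 j
          exact ⟨j', h7.trans h4, h6.trans h5⟩
        · intro i
          obtain ⟨j', h6, h7⟩ := h2 i
          exact ⟨j', h7, h6⟩)
    ⟨(d, x₀, x₀'), hs₀, fun i => ⟨i, rfl, rfl⟩⟩
  set G : ℂ → ℂ → Prop := fun a b => ∃ (N : ℕ) (e : ℕ ⊕ K), ev K (c N).1.2.1 e = a ∧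
    ev K (c N).1.2.2 e = b with hG
  have hfin : ∀ (l : ℕ) (v w : Fin l → ℂ), (∀ a, G (v a) (w a)) → ∃ (N : ℕ)
      (ι : Fin l → ℕ ⊕ K), (fun a => ev K (c N).1.2.1 (ι a)) = v ∧
        (fun a => ev K (c N).1.2.2 (ι a)) = w := by
    intro l v w h
    choose N e h1 h2 using h
    have h3 : ∀ a, ∃ e' : ℕ ⊕ K, ev K (c (Finset.univ.sup N)).1.2.1 e' = v a ∧
        ev K (c (Finset.univ.sup N)).1.2.2 e' = w a := by
      intro a
      have h4 := hcmono (N a) (Finset.univ.sup N) (Finset.le_sup (Finset.mem_univ a))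
      have h5 := h1 a
      have h6 := h2 a
      generalize e a = u at h5 h6
      rcases u with i | k
      · obtain ⟨j, h7, h8⟩ := h4 i
        exact ⟨Sum.inl j, h7.trans h5, h8.trans h6⟩
      · exact ⟨Sum.inr k, h5, h6⟩
    choose ι h4 h5 using h3
    exact ⟨_, ι, funext h4, funext h5⟩
  have hrel : ∀ j (v w : Fin (n j) → ℂ), (∀ a, G (v a) (w a)) → (v ∈ R j ↔ w ∈ R j) := by
    intro j v w h
    obtain ⟨N, ι, rfl, rfl⟩ := hfin _ v w h
    exact ⟨hIt t t' ht ht' _ _ _ (c N).2.1.1 (Sum.inl ⟨j, ι⟩),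
      hIt t' t ht' ht _ _ _ (hIs _ _ _ _ _ (c N).2.1.1) (Sum.inl ⟨j, ι⟩)⟩
  have heq : ∀ a b a' b', G a b → G a' b' → (a = a' ↔ b = b') := by
    intro a b a' b' h h'
    obtain ⟨N, ι, h1, h2⟩ := hfin 2 ![a, a'] ![b, b'] (by
      intro i
      fin_cases i
      · exact h
      · exact h')
    have e1 := congrFun h1 0
    have e2 := congrFun h1 1
    have e3 := congrFun h2 0
    have e4 := congrFun h2 1
    simp only [Matrix.cons_val_zero, Matrix.cons_val_one] at e1 e2 e3 e4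
    rw [← e1, ← e2, ← e3, ← e4]
    exact ⟨hIt t t' ht ht' _ _ _ (c N).2.1.1 (Sum.inr (ι 0, ι 1)),
      hIt t' t ht' ht _ _ _ (hIs _ _ _ _ _ (c N).2.1.1) (Sum.inr (ι 0, ι 1))⟩
  have hcl : ∀ (t : ℂ) (x : ℕ → ℂ), (∀ i, Cl F (A ∪ range (γ t)) (x i)) → ∀ c : ℕ ⊕ K,
      Cl F (A ∪ range (γ t)) (ev K x c) := by
    rintro t x hx (i | c)
    · exact hx i
    · exact c.2.mono subset_union_left
  have hex : ∀ z : {z // Cl F (A ∪ range (γ t)) z},
      ∃ w : {z // Cl F (A ∪ range (γ t')) z}, G z w := by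
    intro z
    obtain ⟨N, e, he⟩ := hcD (Sum.inl z)
    exact ⟨⟨_, hcl t' _ (c N).2.1.2.2 e⟩, N, e, he, rfl⟩
  have hex' : ∀ w : {z // Cl F (A ∪ range (γ t')) z},
      ∃ z : {z // Cl F (A ∪ range (γ t)) z}, G z w := by
    intro w
    obtain ⟨N, e, he⟩ := hcD (Sum.inr w)
    exact ⟨⟨_, hcl t _ (c N).2.1.2.1 e⟩, N, e, rfl, he⟩
  choose f hf using hex
  choose f' hf' using hex'
  have hfG : ∀ (z : {z // Cl F (A ∪ range (γ t)) z}) b, G z b → (f z : ℂ) = b :=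
    fun z b h => (heq z (f z) z b (hf z) h).1 rfl
  refine ⟨⟨f, f', ?_, ?_⟩, ?_, ?_, ?_⟩
  · intro z
    exact Subtype.ext ((heq _ _ _ _ (hf' (f z)) (hf z)).2 rfl)
  · intro w
    exact Subtype.ext ((heq _ _ _ _ (hf (f' w)) (hf' w)).1 rfl)
  · intro i
    apply hfG
    obtain ⟨j, h1, h2⟩ := (c 0).2.2 i
    refine ⟨0, Sum.inl j, ?_, ?_⟩
    · exact h1.trans (hr2 t i)
    · exact h2.trans (hr2 t' i)
  · intro z hz
    apply hfG
    exact ⟨0, Sum.inr ⟨z, hz⟩, rfl, rfl⟩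
  · intro j v
    exact hrel j _ _ fun a => hf (v a)

end Pool.Agent.TH735.BF
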