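import Pool.Agent.TH735.BF.Piece

/-!
A back-and-forth system between any two points outside of a countable set.
-/

set_option autoImplicit false

namespace Pool.Agent.TH735.BF

open Set Filter Topology Complex Metric Cardinal
open Pool.Agent.TH735.QM Pool.Agent.TH735.FO

theorem reg_test {T : (ℕ → ℂ) → Prop} (hT : ∀ p : Pc, QmOn p.U {t | T (p.φ t)}) :
    Reg (fun φ t => T (φ t)) where
  loc := by
    intro φ φ' t hev h
    rw [← hev.self_of_nhds]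
    exact h
  qm := hT

theorem engine {ι τ : Type} [Countable ι] [Countable τ] (root : Pc) (d : ℕ)
    (hd : ∀ t ∈ root.U, ∀ i > d, root.φ t i = root.φ t 0) (g : ι → (ℕ → ℂ) → ℂ → ℂ)
    (hg : ∀ i, RegG (g i)) (T : τ → (ℕ → ℂ) → Prop)
    (hT : ∀ j, ∀ p : Pc, QmOn p.U {t | T j (p.φ t)}) :
    ∃ (B : Set ℂ) (I : ℂ → ℂ → ℕ → (ℕ → ℂ) → (ℕ → ℂ) → Prop), B.Countable ∧
      (∀ t ∈ root.U, ∀ t' ∈ root.U, I t t' d (root.φ t) (root.φ t')) ∧
      (∀ t t' n x x', I t t' n x x' → I t' t n x' x) ∧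
      (∀ t t' n x x', I t t' n x x' → ∀ i > n, x i = x 0) ∧
      (∀ t t', t ∉ B → t' ∉ B → ∀ n x x', I t t' n x x' → ∀ j, T j x → T j x') ∧
      (∀ t t', t ∉ B → t' ∉ B → ∀ n x x', I t t' n x x' → ∀ i z, (∃ y, g i x y ≠ 0) →
        g i x z = 0 → ∃ z', (∃ y, g i x' y ≠ 0) ∧ g i x' z' = 0 ∧
          I t t' (n + 1) (Function.update x (n + 1) z) (Function.update x' (n + 1) z')) := by
  choose Q hQc hQ1 hQ2 using fun (i : ι) (p : Pc) (n : ℕ) => cover (g i) p n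
  set P : ℕ → Set Pc := fun n => Nat.rec {root}
    (fun n S => ⋃ p ∈ S, ⋃ i, Q i p (d + n + 1)) n with hP
  have hP0 : P 0 = {root} := rfl
  have hPs : ∀ n, P (n + 1) = ⋃ p ∈ P n, ⋃ i, Q i p (d + n + 1) := fun n => rfl
  have hPc : ∀ n, (P n).Countable := by
    intro n
    induction n with
    | zero => rw [hP0]; exact countable_singleton _
    | succ n ih =>
      rw [hPs]
      exact ih.biUnion fun p _ => countable_iUnion fun i => hQc i p (d + n + 1)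
  have hjunk : ∀ n, ∀ p ∈ P n, ∀ t ∈ p.U, ∀ i > d + n, p.φ t i = p.φ t 0 := by
    intro n
    induction n with
    | zero =>
      intro p hp t ht
      rw [hP0, mem_singleton_iff] at hp
      subst hp
      exact hd t ht
    | succ n ih =>
      intro q hq t ht
      rw [hPs] at hq
      obtain ⟨p, hp, hq⟩ := mem_iUnion₂.1 hq
      obtain ⟨i, hq⟩ := mem_iUnion.1 hq
      obtain ⟨hsub, h1⟩ := hQ1 i p (d + n + 1) q hq
      have h2 := (h1 t ht).1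
      have h3 := ih p hp t (hsub ht)
      intro j hj
      rw [h2, Function.update_of_ne (by omega), Function.update_of_ne (by omega)]
      exact h3 j (by omega)
  -- the exceptional set
  have hgood : ∀ (i : ι) (p : Pc), ∃ B : Set ℂ, B.Countable ∧ ∀ t ∈ p.U, t ∉ B →
      (∃ x, g i (p.φ t) x ≠ 0) → ∀ x, g i (p.φ t) x = 0 →
        Good (fun q : ℂ × ℂ => g i (p.φ q.1) q.2) (t, x) := by
    intro i p
    by_cases hne : ∃ t ∈ p.U, ∃ x, g i (p.φ t) x ≠ 0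
    · obtain ⟨B, hB, h⟩ := good_off (hg i) p hne
      exact ⟨B, hB, fun t ht htB _ => (h t ht htB).2⟩
    · exact ⟨∅, countable_empty, fun t ht _ hx => absurd ⟨t, ht, hx⟩ hne⟩
  choose Bd hBd hBd' using hgood
  set B : Set ℂ := ⋃ n, ⋃ p ∈ P n, ((⋃ j, exc (fun φ t => T j (φ t)) p) ∪
    (⋃ i, ⋃ w ∈ P (n + 1), exc (Et (g i) (d + n + 1) w) p) ∪ ⋃ i, Bd i p) with hB
  have hBc : B.Countable := by
    refine countable_iUnion fun n => (hPc n).biUnion fun p _ => ?_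
    refine ((countable_iUnion fun j => exc_countable' (reg_test (hT j)) p).union
      (countable_iUnion fun i => (hPc (n + 1)).biUnion fun w _ =>
        exc_countable' (reg_Et (hg i) _ _) p)).union (countable_iUnion fun i => hBd i p)
  set I : ℂ → ℂ → ℕ → (ℕ → ℂ) → (ℕ → ℂ) → Prop := fun t t' n x x' =>
    ∃ k, n = d + k ∧ ∃ p ∈ P k, ∃ p' ∈ P k, Eqv p p' ∧ t ∈ p.U ∧ t' ∈ p'.U ∧ x = p.φ t ∧
      x' = p'.φ t' with hI
  have hB1 : ∀ t, t ∉ B → ∀ n, ∀ p ∈ P n, t ∈ p.U → ∀ j, (T j (p.φ t) ↔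
      Gn (fun φ t => T j (φ t)) p) := by
    intro t htB n p hp ht j
    by_contra hcon
    apply htB
    refine mem_iUnion.2 ⟨n, mem_iUnion₂.2 ⟨p, hp, Or.inl (Or.inl (mem_iUnion.2 ⟨j, ht, hcon⟩))⟩⟩
  have hB2 : ∀ t, t ∉ B → ∀ n, ∀ p ∈ P n, t ∈ p.U → ∀ i, ∀ w ∈ P (n + 1),
      (Et (g i) (d + n + 1) w p.φ t ↔ Gn (Et (g i) (d + n + 1) w) p) := by
    intro t htB n p hp ht i w hw
    by_contra hcon
    apply htB
    refine mem_iUnion.2 ⟨n, mem_iUnion₂.2 ⟨p, hp, Or.inl (Or.inr (mem_iUnion.2 ⟨i,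
      mem_iUnion₂.2 ⟨w, hw, ht, hcon⟩⟩))⟩⟩
  have hB3 : ∀ t, t ∉ B → ∀ n, ∀ p ∈ P n, ∀ i, t ∉ Bd i p := by
    intro t htB n p hp i h
    exact htB (mem_iUnion.2 ⟨n, mem_iUnion₂.2 ⟨p, hp, Or.inr (mem_iUnion.2 ⟨i, h⟩)⟩⟩)
  refine ⟨B, I, hBc, ?_, ?_, ?_, ?_, ?_⟩
  · intro t ht t' ht'
    exact ⟨0, rfl, root, rfl, root, rfl, Eqv.refl _, ht, ht', rfl, rfl⟩
  · rintro t t' n x x' ⟨k, hk, p, hp, p', hp', he, ht, ht', hx, hx'⟩
    exact ⟨k, hk, p', hp', p, hp, he.symm, ht', ht, hx', hx⟩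
  · rintro t t' n x x' ⟨k, hk, p, hp, p', hp', he, ht, ht', hx, hx'⟩
    rw [hx, hk]
    exact hjunk k p hp t ht
  · rintro t t' htB htB' n x x' ⟨k, hk, p, hp, p', hp', he, ht, ht', hx, hx'⟩ j hj
    rw [hx] at hj
    rw [hx']
    exact (hB1 t' htB' k p' hp' ht' j).2 (((hB1 t htB k p hp ht j).1 hj).eqv
      (reg_test (hT j)) he)
  · rintro t t' htB htB' _ x x' ⟨n, rfl, p, hp, p', hp', he, ht, ht', hx, hx'⟩ i z hne hz
    subst hx hx'
    have hG := hBd' i p t ht (hB3 t htB n p hp i) hne z hz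
    obtain ⟨q, hq, htq, hqz⟩ := hQ2 i p (d + n + 1) t ht z hG
    obtain ⟨hqU, hq1⟩ := hQ1 i p (d + n + 1) q hq
    have hqP : q ∈ P (n + 1) := by
      rw [hPs]
      exact mem_iUnion₂.2 ⟨p, hp, mem_iUnion.2 ⟨i, hq⟩⟩
    have hE : Et (g i) (d + n + 1) q p.φ t := by
      refine ⟨z, hne, hz, q, Eqv.refl _, htq, hqz, ?_⟩
      filter_upwards [q.op.mem_nhds htq] with s hs
      exact hq1 s hs
    have hE' : Et (g i) (d + n + 1) q p'.φ t' :=
      (hB2 t' htB' n p' hp' ht' i q hqP).2 (((hB2 t htB n p hp ht i q hqP).1 hE).eqv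
        (reg_Et (hg i) _ _) he)
    obtain ⟨z', hne', hz', q'', hq''q, htq'', hqz'', hev⟩ := hE'
    have hG' := hBd' i p' t' ht' (hB3 t' htB' n p' hp' i) hne' z' hz'
    obtain ⟨q', hq', htq', hqz'⟩ := hQ2 i p' (d + n + 1) t' ht' z' hG'
    obtain ⟨hqU', hq1'⟩ := hQ1 i p' (d + n + 1) q' hq'
    have hqP' : q' ∈ P (n + 1) := by
      rw [hPs]
      exact mem_iUnion₂.2 ⟨p', hp', mem_iUnion.2 ⟨i, hq'⟩⟩
    have huniq := good_unique hG' (q'.an (d + n + 1) t' htq').continuousAt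
      (q''.an (d + n + 1) t' htq'').continuousAt hqz' hqz'' (by
        filter_upwards [q'.op.mem_nhds htq'] with s hs
        exact (hq1' s hs).2) (hev.mono fun s hs => hs.2)
    have hov : Ov q' q'' := by
      refine ⟨t', htq', htq'', ?_⟩
      filter_upwards [huniq, hev, q'.op.mem_nhds htq'] with s h1 h2 h3
      rw [(hq1' s h3).1, h2.1, h1]
    refine ⟨z', hne', hz', n + 1, rfl, q, hqP, q', hqP', (hov.eqv.trans hq''q).symm, htq, htq', ?_, ?_⟩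
    · rw [(hq1 t htq).1, hqz]
    · rw [(hq1' t' htq').1, hqz']

end Pool.Agent.TH735.BF
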