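import Pool.Agent.TH735.FO.Rule

/-!
Sequences of analytic functions on connected open sets, and their analytic continuation.
-/

set_option autoImplicit false

namespace Pool.Agent.TH735.BF

open Set Filter Topology Complex Metric Cardinal
open Pool.Agent.TH735.QM Pool.Agent.TH735.FO

/-- a sequence of analytic functions on a connected open set -/
structure Pc where
  /-- the domain -/
  U : Set ℂ
  /-- the functions -/
  φ : ℂ → ℕ → ℂ
  op : IsOpen U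
  conn : IsPreconnected U
  ne : U.Nonempty
  an : ∀ i, AnalyticOnNhd ℂ (fun t => φ t i) U

theorem not_countable_of_open {U : Set ℂ} (hU : IsOpen U) (hne : U.Nonempty) :
    ¬ U.Countable := by
  intro h
  obtain ⟨t, ht⟩ := hne
  obtain ⟨r, hr, hsub⟩ := Metric.isOpen_iff.1 hU t ht
  exact ball_not_countable t hr (h.mono hsub)

/-- two pieces overlap, and agree near some point -/
def Ov (p q : Pc) : Prop := ∃ t, t ∈ p.U ∧ t ∈ q.U ∧ ∀ᶠ s in 𝓝 t, p.φ s = q.φ s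

theorem Ov.symm {p q : Pc} (h : Ov p q) : Ov q p := by
  obtain ⟨t, h1, h2, h3⟩ := h
  exact ⟨t, h2, h1, h3.mono fun s hs => hs.symm⟩

/-- analytic continuation -/
def Eqv (p q : Pc) : Prop := Relation.ReflTransGen Ov p q

theorem Eqv.refl (p : Pc) : Eqv p p := Relation.ReflTransGen.refl

theorem Eqv.trans {p q r : Pc} (h : Eqv p q) (h' : Eqv q r) : Eqv p r :=
  Relation.ReflTransGen.trans h h'

theorem Eqv.symm {p q : Pc} (h : Eqv p q) : Eqv q p := by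
  induction h with
  | refl => exact Eqv.refl _
  | tail _ h2 ih => exact (Relation.ReflTransGen.single h2.symm).trans ih

theorem Ov.eqv {p q : Pc} (h : Ov p q) : Eqv p q := Relation.ReflTransGen.single h

/-- a property of germs of sequences of analytic functions which, on every connected open set,
holds at all but countably many or at only countably many points -/
structure Reg (Θ : (ℂ → ℕ → ℂ) → ℂ → Prop) : Prop where
  loc : ∀ (φ φ' : ℂ → ℕ → ℂ) (t : ℂ), (∀ᶠ s in 𝓝 t, φ s = φ' s) → Θ φ t → Θ φ' t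
  qm : ∀ p : Pc, QmOn p.U {t | Θ p.φ t}

/-- the property holds generically -/
def Gn (Θ : (ℂ → ℕ → ℂ) → ℂ → Prop) (p : Pc) : Prop := (p.U \ {t | Θ p.φ t}).Countable

theorem Gn.ov {Θ : (ℂ → ℕ → ℂ) → ℂ → Prop} (hΘ : Reg Θ) {p q : Pc} (h : Ov p q)
    (hp : Gn Θ p) : Gn Θ q := by
  rcases hΘ.qm q with hq | hq
  · exfalso
    obtain ⟨t, h1, h2, h3⟩ := h
    have h4 : ∀ᶠ s in 𝓝 t, s ∈ p.U ∧ s ∈ q.U ∧ ∀ᶠ s' in 𝓝 s, p.φ s' = q.φ s' := by
      filter_upwards [p.op.mem_nhds h1, q.op.mem_nhds h2, h3.eventually_nhds] with s a b c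
      exact ⟨a, b, c⟩
    obtain ⟨r, hr, hr'⟩ := Metric.eventually_nhds_iff_ball.1 h4
    apply ball_not_countable t hr
    refine (hp.union hq).mono ?_
    intro s hs
    obtain ⟨a, b, c⟩ := hr' s hs
    by_cases hs' : Θ p.φ s
    · exact Or.inr ⟨b, hΘ.loc _ _ _ c hs'⟩
    · exact Or.inl ⟨a, hs'⟩
  · exact hq

theorem Gn.eqv {Θ : (ℂ → ℕ → ℂ) → ℂ → Prop} (hΘ : Reg Θ) {p q : Pc} (h : Eqv p q)
    (hp : Gn Θ p) : Gn Θ q := by
  induction h with
  | refl => exact hp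
  | tail _ h2 ih => exact ih.ov hΘ h2

/-- the exceptional points -/
def exc (Θ : (ℂ → ℕ → ℂ) → ℂ → Prop) (p : Pc) : Set ℂ := {t | t ∈ p.U ∧ ¬ (Θ p.φ t ↔ Gn Θ p)}

theorem exc_countable' {Θ : (ℂ → ℕ → ℂ) → ℂ → Prop} (hΘ : Reg Θ) (p : Pc) :
    (exc Θ p).Countable := by
  by_cases hG : Gn Θ p
  · refine Set.Countable.mono ?_ hG
    rintro t ⟨ht, hn⟩
    refine ⟨ht, fun h => hn ⟨fun _ => hG, fun _ => h⟩⟩
  · rcases hΘ.qm p with h | h
    · refine h.mono ?_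
      rintro t ⟨ht, hn⟩
      refine ⟨ht, ?_⟩
      by_contra h'
      exact hn ⟨fun h => absurd h h', fun h => absurd h hG⟩
    · exact absurd h hG

/-- a function that may be used to guard a quantifier -/
structure RegG (g : (ℕ → ℂ) → ℂ → ℂ) : Prop where
  an : ∀ p : Pc, AnalyticOnNhd ℂ (fun q : ℂ × ℂ => g (p.φ q.1) q.2) (p.U ×ˢ Set.univ)
  gr : ∀ p : Pc, ∀ t₀ ∈ p.U, ∃ (A : ℝ) (ρ : ℕ), ∀ᶠ t in 𝓝 t₀, ∀ x,
    ‖g (p.φ t) x‖ ≤ Real.exp (A * (1 + ‖x‖) ^ ρ)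

/-- outside of a countable set, all zeros are good -/
theorem good_off {g : (ℕ → ℂ) → ℂ → ℂ} (hg : RegG g) (p : Pc)
    (hne : ∃ t ∈ p.U, ∃ x, g (p.φ t) x ≠ 0) :
    ∃ B : Set ℂ, B.Countable ∧ ∀ t ∈ p.U, t ∉ B → (∃ x, g (p.φ t) x ≠ 0) ∧
      ∀ x, g (p.φ t) x = 0 → Good (fun q : ℂ × ℂ => g (p.φ q.1) q.2) (t, x) := by
  obtain ⟨t₁, ht₁, x₁, hx₁⟩ := hne
  set f : ℂ × ℂ → ℂ := fun q => g (p.φ q.1) q.2 with hf
  have hfan : AnalyticOnNhd ℂ f (p.U ×ˢ Set.univ) := hg.an p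
  have hsl := slice_left hfan x₁
  have hB := zeros_countableOn p.conn hsl ⟨t₁, ht₁, hx₁⟩
  set U₁ : Set ℂ := p.U ∩ {t | f (t, x₁) ≠ 0} with hU₁
  have hU₁o : IsOpen U₁ := by
    have h1 : ContinuousOn (fun t => f (t, x₁)) p.U := hsl.continuousOn
    exact h1.isOpen_inter_preimage p.op isOpen_ne
  have hf₁ : AnalyticOnNhd ℂ f (U₁ ×ˢ Set.univ) :=
    hfan.mono (prod_mono inter_subset_left Subset.rfl)
  have hbad := (bad_countable hU₁o hf₁ (fun t ht => ⟨x₁, ht.2⟩)).image Prod.fst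
  refine ⟨_, hB.union hbad, ?_⟩
  intro t ht htB
  have h1 : f (t, x₁) ≠ 0 := fun h => htB (Or.inl ⟨ht, h⟩)
  refine ⟨⟨x₁, h1⟩, ?_⟩
  intro x hx
  by_contra hG
  exact htB (Or.inr ⟨(t, x), ⟨⟨ht, h1⟩, hx, hG⟩, rfl⟩)

theorem good_unique {f : ℂ × ℂ → ℂ} {t x : ℂ} (hG : Good f (t, x)) {a b : ℂ → ℂ}
    (ha : ContinuousAt a t) (hb : ContinuousAt b t) (hat : a t = x) (hbt : b t = x)
    (ha0 : ∀ᶠ s in 𝓝 t, f (s, a s) = 0) (hb0 : ∀ᶠ s in 𝓝 t, f (s, b s) = 0) :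
    ∀ᶠ s in 𝓝 t, a s = b s := by
  obtain ⟨φ, -, -, hev⟩ := hG
  have h1 : Tendsto (fun s => (s, a s)) (𝓝 t) (𝓝 (t, x)) := by
    have h2 : Tendsto a (𝓝 t) (𝓝 x) := by
      have := ha.tendsto
      rwa [hat] at this
    exact tendsto_id.prodMk_nhds h2
  have h2 : Tendsto (fun s => (s, b s)) (𝓝 t) (𝓝 (t, x)) := by
    have h2 : Tendsto b (𝓝 t) (𝓝 x) := by
      have := hb.tendsto
      rwa [hbt] at this
    exact tendsto_id.prodMk_nhds h2
  filter_upwards [h1.eventually hev, h2.eventually hev, ha0, hb0] with s h3 h4 h5 h6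
  exact (h3.1 h5).trans (h4.1 h6).symm

/-- `z` is a zero of `g (φ t)` such that the branch of the zero set through it, added to `φ` at
the place `n`, is an analytic continuation of `w` -/
def Yt (g : (ℕ → ℂ) → ℂ → ℂ) (n : ℕ) (w : Pc) (φ : ℂ → ℕ → ℂ) (t z : ℂ) : Prop :=
  ∃ q : Pc, Eqv q w ∧ t ∈ q.U ∧ q.φ t n = z ∧
    ∀ᶠ s in 𝓝 t, q.φ s = Function.update (φ s) n (q.φ s n) ∧ g (φ s) (q.φ s n) = 0

/-- adding a function to a piece -/
def Pc.add (p : Pc) (n : ℕ) (W : Set ℂ) (z : ℂ → ℂ) (hWU : W ⊆ p.U) (hW : IsOpen W)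
    (hWc : IsPreconnected W) (hne : W.Nonempty) (hz : AnalyticOnNhd ℂ z W) : Pc where
  U := W
  φ := fun t => Function.update (p.φ t) n (z t)
  op := hW
  conn := hWc
  ne := hne
  an := by
    intro i
    by_cases hi : i = n
    · subst hi
      simpa using hz
    · simp only [Function.update_of_ne hi]
      exact (p.an i).mono hWU

theorem lq_Yt {g : (ℕ → ℂ) → ℂ → ℂ} (hg : RegG g) (p : Pc) (n : ℕ) (w : Pc)
    (hne : ∃ t ∈ p.U, ∃ x, g (p.φ t) x ≠ 0) : LQ p.U (Yt g n w p.φ) := by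
  intro W hWU hW hWc z hz
  rcases W.eq_empty_or_nonempty with hW0 | hW0
  · left
    rw [hW0, empty_inter]
    exact countable_empty
  set f : ℂ × ℂ → ℂ := fun q => g (p.φ q.1) q.2 with hf
  by_cases hf0 : ∀ t ∈ W, f (t, z t) = 0
  · obtain ⟨B, hB, hgood⟩ := good_off hg p hne
    set qW := p.add n W z hWU hW hWc hW0 hz with hqW
    have key : ∀ t ∈ W, t ∉ B → (Yt g n w p.φ t (z t) ↔ Eqv qW w) := by
      intro t ht htB
      constructor
      · rintro ⟨q, hqw, htq, hqz, hev⟩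
        have hG := (hgood t (hWU ht) htB).2 (z t) (hf0 t ht)
        have hev1 : ∀ᶠ s in 𝓝 t, f (s, z s) = 0 := by
          filter_upwards [hW.mem_nhds ht] with s hs
          exact hf0 s hs
        have huniq := good_unique hG (q.an n t htq).continuousAt (hz t ht).continuousAt hqz rfl
          (hev.mono fun s hs => hs.2) hev1
        have hov : Ov qW q := by
          refine ⟨t, ht, htq, ?_⟩
          filter_upwards [hev, huniq] with s h1 h2
          rw [h1.1, h2]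
          rfl
        exact hov.eqv.trans hqw
      · intro hqw
        refine ⟨qW, hqw, ht, ?_, ?_⟩
        · show Function.update (p.φ t) n (z t) n = z t
          simp
        · filter_upwards [hW.mem_nhds ht] with s hs
          have e : qW.φ s n = z s := by
            show Function.update (p.φ s) n (z s) n = z s
            simp
          rw [e]
          exact ⟨rfl, hf0 s hs⟩
    by_cases hE : Eqv qW w
    · right
      refine hB.mono ?_
      rintro t ⟨ht, hn⟩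
      by_contra htB
      exact hn ((key t ht htB).2 hE)
    · left
      refine hB.mono ?_
      rintro t ⟨ht, hn⟩
      by_contra htB
      exact hE ((key t ht htB).1 hn)
  · left
    push Not at hf0
    have han : AnalyticOnNhd ℂ (fun t => f (t, z t)) W := by
      intro t ht
      have h1 : AnalyticAt ℂ f (t, z t) := hg.an p (t, z t) ⟨hWU ht, mem_univ _⟩
      exact h1.comp (f := fun t => (t, z t)) (analyticAt_id.prod (hz t ht))
    refine (zeros_countableOn hWc han hf0).mono ?_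
    rintro t ⟨ht, q, -, -, hqz, hev⟩
    refine ⟨ht, ?_⟩
    have := hev.self_of_nhds.2
    rw [hqz] at this
    exact this

/-- there is a zero in the class `w` -/
def Et (g : (ℕ → ℂ) → ℂ → ℂ) (n : ℕ) (w : Pc) (φ : ℂ → ℕ → ℂ) (t : ℂ) : Prop :=
  ∃ z, (∃ x, g (φ t) x ≠ 0) ∧ g (φ t) z = 0 ∧ Yt g n w φ t z

theorem reg_Et {g : (ℕ → ℂ) → ℂ → ℂ} (hg : RegG g) (n : ℕ) (w : Pc) : Reg (Et g n w) where
  loc := by
    rintro φ φ' t hev ⟨z, hx, hz, q, h1, h2, h3, h4⟩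
    have h0 : φ t = φ' t := hev.self_of_nhds
    rw [h0] at hx hz
    refine ⟨z, hx, hz, q, h1, h2, h3, ?_⟩
    filter_upwards [hev, h4] with s h5 h6
    rw [← h5]
    exact h6
  qm := by
    intro p
    by_cases hne : ∃ t ∈ p.U, ∃ x, g (p.φ t) x ≠ 0
    · have h1 := (finite_order_count p.op p.conn (hg.an p) (lq_Yt hg p n w hne) (hg.gr p)).qm 1
      refine h1.congr' ?_
      intro t _
      simp only [Set.mem_ofPred_eq]
      rw [Cardinal.one_le_iff_ne_zero, Cardinal.mk_ne_zero_iff, nonempty_subtype]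
      rfl
    · left
      convert countable_empty using 1
      ext t
      simp only [mem_inter_iff, Set.mem_ofPred_eq, mem_empty_iff_false, iff_false, not_and]
      rintro ht ⟨z, hx, -⟩
      exact hne ⟨t, ht, hx⟩

/-- countably many pieces cover the good zeros -/
theorem cover (g : (ℕ → ℂ) → ℂ → ℂ) (p : Pc) (n : ℕ) :
    ∃ Q : Set Pc, Q.Countable ∧ (∀ q ∈ Q, q.U ⊆ p.U ∧ ∀ s ∈ q.U,
        q.φ s = Function.update (p.φ s) n (q.φ s n) ∧ g (p.φ s) (q.φ s n) = 0) ∧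
      ∀ t ∈ p.U, ∀ z, Good (fun q : ℂ × ℂ => g (p.φ q.1) q.2) (t, z) →
        ∃ q ∈ Q, t ∈ q.U ∧ q.φ t n = z := by
  set f : ℂ × ℂ → ℂ := fun q => g (p.φ q.1) q.2 with hf
  have hloc : ∀ P ∈ {P : ℂ × ℂ | P.1 ∈ p.U ∧ Good f P}, ∃ q : Pc, ∃ N ∈ 𝓝 P,
      (q.U ⊆ p.U ∧ ∀ s ∈ q.U,
        q.φ s = Function.update (p.φ s) n (q.φ s n) ∧ g (p.φ s) (q.φ s n) = 0) ∧
      ∀ P' ∈ N, f P' = 0 → P'.1 ∈ q.U ∧ q.φ P'.1 n = P'.2 := by
    rintro P ⟨hP, ψ, hψ, hψP, hev⟩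
    have hcont : Tendsto (fun t => (t, ψ t)) (𝓝 P.1) (𝓝 P) := by
      have h1 : Tendsto ψ (𝓝 P.1) (𝓝 P.2) := by
        have := hψ.continuousAt.tendsto
        rwa [hψP] at this
      exact tendsto_id.prodMk_nhds h1
    have h1 : ∀ᶠ t in 𝓝 P.1, t ∈ p.U ∧ AnalyticAt ℂ ψ t ∧ f (t, ψ t) = 0 := by
      filter_upwards [p.op.mem_nhds hP, hψ.eventually_analyticAt, hcont.eventually hev]
        with t h1 h2 h3
      exact ⟨h1, h2, h3.2 rfl⟩
    obtain ⟨r, hr, hr'⟩ := Metric.eventually_nhds_iff_ball.1 h1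
    set q := p.add n (ball P.1 r) ψ (fun t ht => (hr' t ht).1) isOpen_ball
      (convex_ball P.1 r).isPreconnected (nonempty_ball.2 hr) (fun t ht => (hr' t ht).2.1) with hq
    have hqn : ∀ s, q.φ s n = ψ s := by
      intro s
      show Function.update (p.φ s) n (ψ s) n = ψ s
      simp
    refine ⟨q, {P' | P'.1 ∈ ball P.1 r ∧ (f P' = 0 ↔ P'.2 = ψ P'.1)}, ?_, ⟨?_, ?_⟩, ?_⟩
    · have h2 : ∀ᶠ q : ℂ × ℂ in 𝓝 P, q.1 ∈ ball P.1 r :=
        (continuousAt_fst (p := P)).eventually (ball_mem_nhds P.1 hr)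
      filter_upwards [h2, hev] with P' h3 h4
      exact ⟨h3, h4⟩
    · exact fun t ht => (hr' t ht).1
    · intro s hs
      rw [hqn]
      exact ⟨rfl, (hr' s hs).2.2⟩
    · rintro P' ⟨h3, h4⟩ h5
      refine ⟨h3, ?_⟩
      rw [hqn]
      exact (h4.1 h5).symm
  have hPc : Nonempty Pc := ⟨p⟩
  choose! q N hN hq1 hq2 using hloc
  obtain ⟨T, hTS, hT, hcov⟩ := TopologicalSpace.countable_cover_nhdsWithin
    (f := N) (s := {P : ℂ × ℂ | P.1 ∈ p.U ∧ Good f P})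
    (fun P hP => mem_nhdsWithin_of_mem_nhds (hN P hP))
  refine ⟨q '' T, hT.image q, ?_, ?_⟩
  · rintro _ ⟨P, hP, rfl⟩
    exact hq1 P (hTS hP)
  · intro t ht z hG
    obtain ⟨P, hP, hmem⟩ := mem_iUnion₂.1 (hcov ⟨ht, hG⟩)
    have h0 : f (t, z) = 0 := by
      obtain ⟨ψ, -, hψ, hev⟩ := hG
      exact hev.self_of_nhds.2 hψ.symm
    obtain ⟨h1, h2⟩ := hq2 P (hTS hP) (t, z) hmem h0
    exact ⟨q P, mem_image_of_mem q hP, h1, h2⟩

end Pool.Agent.TH735.BF
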