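import Pool.Agent.TH735.BF.Closure

/-!
Automorphisms of structures on `ℂ` whose relations are guarded by equations of finite order in
two unknowns.
-/

set_option autoImplicit false

namespace Pool.Agent.TH735.BF

open Set Filter Topology Complex Metric Cardinal
open Pool.Agent.TH735.QM Pool.Agent.TH735.FO

/-- `F(s, x)` is of finite order in `x`, locally uniformly in `s` -/
def FinOrd (F : ℂ → ℂ → ℂ) : Prop :=
  ∀ s₀ : ℂ, ∃ (A : ℝ) (ρ : ℕ), ∀ᶠ s in 𝓝 s₀, ∀ x, ‖F s x‖ ≤ Real.exp (A * (1 + ‖x‖) ^ ρ)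

/-- the two points are different from each other only if they are linked by one of the equations -/
def Linked (F : ℕ → ℂ → ℂ → ℂ) (x y : ℂ) : Prop :=
  x = y ∨ ∃ k, (∃ a b, F k a b ≠ 0) ∧ (F k x y = 0 ∨ F k y x = 0)

theorem Linked.symm {F : ℕ → ℂ → ℂ → ℂ} {x y : ℂ} (h : Linked F x y) : Linked F y x := by
  rcases h with h | ⟨k, h1, h2⟩
  · exact Or.inl h.symm
  · exact Or.inr ⟨k, h1, h2.symm⟩

/-- the connected component outside of `K` -/
def Cp (F : ℕ → ℂ → ℂ → ℂ) (K : Set ℂ) (x y : ℂ) : Prop :=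
  Relation.ReflTransGen (fun a b => a ∉ K ∧ b ∉ K ∧ Linked F a b) x y

theorem Cp.symm {F : ℕ → ℂ → ℂ → ℂ} {K : Set ℂ} {x y : ℂ} (h : Cp F K x y) : Cp F K y x := by
  induction h with
  | refl => exact Relation.ReflTransGen.refl
  | tail _ h2 ih =>
    exact (Relation.ReflTransGen.single ⟨h2.2.1, h2.1, h2.2.2.symm⟩).trans ih

theorem Cp.trans {F : ℕ → ℂ → ℂ → ℂ} {K : Set ℂ} {x y z : ℂ} (h : Cp F K x y)
    (h' : Cp F K y z) : Cp F K x z := Relation.ReflTransGen.trans h h'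

theorem Cp.notMem {F : ℕ → ℂ → ℂ → ℂ} {K : Set ℂ} {x y : ℂ} (hx : x ∉ K) (h : Cp F K x y) :
    y ∉ K := by
  induction h with
  | refl => exact hx
  | tail _ h2 _ => exact h2.2.1

open Classical in
/-- exchanging two sets -/
noncomputable def swp (S S' : Set ℂ) (f f' : ℂ → ℂ) (z : ℂ) : ℂ :=
  if z ∈ S then f z else if z ∈ S' then f' z else z

theorem swp_inv {S S' : Set ℂ} {f f' : ℂ → ℂ} (hf : ∀ z ∈ S, f z ∈ S') (hf' : ∀ z ∈ S', f' z ∈ S)
    (h1 : ∀ z ∈ S, f' (f z) = z) (h2 : ∀ z ∈ S', f (f' z) = z)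
    (hd : ∀ z, z ∈ S → z ∈ S' → S = S') (z : ℂ) : swp S' S f' f (swp S S' f f' z) = z := by
  unfold swp
  by_cases hz : z ∈ S
  · rw [if_pos hz, if_pos (hf z hz), h1 z hz]
  · rw [if_neg hz]
    by_cases hz' : z ∈ S'
    · rw [if_pos hz', if_neg, if_pos (hf' z hz'), h2 z hz']
      intro h3
      have := hd _ (hf' z hz') h3
      exact hz (by rw [this]; exact hz')
    · rw [if_neg hz', if_neg hz', if_neg hz]

theorem swp_rel {S S' K : Set ℂ} {G : ℂ → ℂ → Prop} {f f' : ℂ → ℂ} (hSK : ∀ z ∈ K, z ∉ S)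
    (hSK' : ∀ z ∈ K, z ∉ S') (hK : ∀ c ∈ K, G c c) (hf : ∀ z ∈ S, G z (f z))
    (hf' : ∀ z ∈ S', G (f' z) z) {l : ℕ} {R : Set (Fin l → ℂ)}
    (hrel : ∀ v w : Fin l → ℂ, (∀ a, G (v a) (w a)) → (v ∈ R ↔ w ∈ R))
    (hguard : ∀ v ∈ R, ∀ a b, v a ∉ K → v b ∉ K → (v a ∈ S ↔ v b ∈ S) ∧ (v a ∈ S' ↔ v b ∈ S'))
    {v : Fin l → ℂ} (hv : v ∈ R) : (fun a => swp S S' f f' (v a)) ∈ R := by
  have hc : ∀ c ∈ K, swp S S' f f' c = c := by
    intro c hc
    unfold swp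
    rw [if_neg (hSK c hc), if_neg (hSK' c hc)]
  by_cases hall : ∀ a, v a ∈ K
  · have : (fun a => swp S S' f f' (v a)) = v := funext fun a => hc _ (hall a)
    rw [this]
    exact hv
  · push Not at hall
    obtain ⟨a₀, ha₀⟩ := hall
    have hg := hguard v hv a₀
    by_cases hS : v a₀ ∈ S
    · refine (hrel v _ ?_).1 hv
      intro a
      by_cases ha : v a ∈ K
      · rw [hc _ ha]
        exact hK _ ha
      · have : v a ∈ S := (hg a ha₀ ha).1.1 hS
        unfold swp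
        rw [if_pos this]
        exact hf _ this
    · by_cases hS' : v a₀ ∈ S'
      · refine (hrel _ v ?_).2 hv
        intro a
        by_cases ha : v a ∈ K
        · rw [hc _ ha]
          exact hK _ ha
        · have h1 : v a ∉ S := fun h => hS ((hg a ha₀ ha).1.2 h)
          have h2 : v a ∈ S' := (hg a ha₀ ha).2.1 hS'
          unfold swp
          rw [if_neg h1, if_pos h2]
          exact hf' _ h2
      · have : (fun a => swp S S' f f' (v a)) = v := by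
          funext a
          by_cases ha : v a ∈ K
          · exact hc _ ha
          · have h1 : v a ∉ S := fun h => hS ((hg a ha₀ ha).1.2 h)
            have h2 : v a ∉ S' := fun h => hS' ((hg a ha₀ ha).2.2 h)
            unfold swp
            rw [if_neg h1, if_neg h2]
        rw [this]
        exact hv

theorem FinOrd.toFin {F : ℂ → ℂ → ℂ} (h : FinOrd F) :
    FiniteOrder (m := 1) (fun y z => F (y 0) z) := by
  intro s₀
  obtain ⟨A, ρ, h'⟩ := h (s₀ 0)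
  exact ⟨A, ρ, (continuous_apply (0 : Fin 1)).continuousAt.eventually h'⟩

theorem an_toFin {F : ℂ → ℂ → ℂ} (h : AnalyticOnNhd ℂ (fun p : ℂ × ℂ => F p.1 p.2) Set.univ) :
    AnalyticOnNhd ℂ (fun p : (Fin 1 → ℂ) × ℂ => F (p.1 0) p.2) Set.univ := by
  intro p _
  have h1 : AnalyticAt ℂ (fun q : (Fin 1 → ℂ) × ℂ => ((q.1 0, q.2) : ℂ × ℂ)) p :=
    ((ContinuousLinearMap.proj (R := ℂ) (φ := fun _ : Fin 1 => ℂ) 0).comp
      (ContinuousLinearMap.fst ℂ (Fin 1 → ℂ) ℂ)).analyticAt p |>.prod analyticAt_snd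
  exact (h _ (mem_univ _)).comp (f := fun q : (Fin 1 → ℂ) × ℂ => ((q.1 0, q.2) : ℂ × ℂ)) h1

theorem an_swap {F : ℂ → ℂ → ℂ} (h : AnalyticOnNhd ℂ (fun p : ℂ × ℂ => F p.1 p.2) Set.univ) :
    AnalyticOnNhd ℂ (fun p : ℂ × ℂ => F p.2 p.1) Set.univ := by
  intro p _
  have h1 : AnalyticAt ℂ (fun q : ℂ × ℂ => ((q.2, q.1) : ℂ × ℂ)) p :=
    analyticAt_snd.prod analyticAt_fst
  exact (h _ (mem_univ _)).comp (f := fun q : ℂ × ℂ => ((q.2, q.1) : ℂ × ℂ)) h1

theorem slice2 {F : ℂ → ℂ → ℂ} (h : AnalyticOnNhd ℂ (fun p : ℂ × ℂ => F p.1 p.2) Set.univ)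
    (y : ℂ) : Differentiable ℂ (F y) := by
  intro z
  have h1 : AnalyticAt ℂ (fun z : ℂ => ((y, z) : ℂ × ℂ)) z :=
    analyticAt_const.prod analyticAt_id
  exact ((h (y, z) (mem_univ _)).comp (f := fun z : ℂ => ((y, z) : ℂ × ℂ))
    h1).differentiableAt

end Pool.Agent.TH735.BF
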