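import Pool.Agent.TH735.BF.Reduct

/-!
Automorphisms of structures on `ℂ` whose relations are guarded by equations of finite order in
two unknowns.
-/

set_option autoImplicit false

namespace Pool.Agent.TH735.BF

open Set Filter Topology Complex Metric Cardinal
open Pool.Agent.TH735.QM Pool.Agent.TH735.FO

/-- the family together with the functions with exchanged arguments -/
def sy (F : ℕ → ℂ → ℂ → ℂ) (k : ℕ) : ℂ → ℂ → ℂ :=
  if k % 2 = 0 then F (k / 2) else fun x z => F (k / 2) z x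

theorem sy_even (F : ℕ → ℂ → ℂ → ℂ) (k : ℕ) : sy F (2 * k) = F k := by
  unfold sy
  rw [if_pos (by omega), show 2 * k / 2 = k by omega]

theorem sy_odd (F : ℕ → ℂ → ℂ → ℂ) (k : ℕ) : sy F (2 * k + 1) = fun x z => F k z x := by
  unfold sy
  rw [if_neg (by omega), show (2 * k + 1) / 2 = k by omega]

theorem linked_iff {F : ℕ → ℂ → ℂ → ℂ} {x y : ℂ} :
    Linked F x y ↔ x = y ∨ ∃ k, (∃ a b, sy F k a b ≠ 0) ∧ sy F k x y = 0 := by
  constructor
  · rintro (h | ⟨k, ⟨a, b, hab⟩, h | h⟩)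
    · exact Or.inl h
    · exact Or.inr ⟨2 * k, ⟨a, b, by rw [sy_even]; exact hab⟩, by rw [sy_even]; exact h⟩
    · exact Or.inr ⟨2 * k + 1, ⟨b, a, by rw [sy_odd]; exact hab⟩, by rw [sy_odd]; exact h⟩
  · rintro (h | ⟨k, ⟨a, b, hab⟩, h⟩)
    · exact Or.inl h
    · unfold sy at hab h
      by_cases hk : k % 2 = 0
      · rw [if_pos hk] at hab h
        exact Or.inr ⟨k / 2, ⟨a, b, hab⟩, Or.inl h⟩
      · rw [if_neg hk] at hab h
        exact Or.inr ⟨k / 2, ⟨b, a, hab⟩, Or.inr h⟩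

theorem reducts {F : ℕ → ℂ → ℂ → ℂ}
    (hF : ∀ k, AnalyticOnNhd ℂ (fun p : ℂ × ℂ => F k p.1 p.2) Set.univ)
    (h1 : ∀ k, FinOrd (F k)) (h2 : ∀ k, FinOrd (fun x z => F k z x))
    {n : ℕ → ℕ} {R : (j : ℕ) → Set (Fin (n j) → ℂ)} (hR : ∀ j, CQ (n j) (R j))
    (hL : ∀ j, ∀ v ∈ R j, ∀ a b, Linked F (v a) (v b)) {A : Set ℂ} (hA : A.Countable) :
    ∃ B : Set ℂ, B.Countable ∧ ∀ t t', t ∉ B → t' ∉ B → ∃ σ : Equiv.Perm ℂ,
      (∀ a ∈ A, σ a = a) ∧ σ t = t' ∧ ∀ j v, v ∈ R j ↔ (fun a => σ (v a)) ∈ R j := by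
  set H := sy F with hH
  have hHan : ∀ k, AnalyticOnNhd ℂ (fun p : ℂ × ℂ => H k p.1 p.2) Set.univ := by
    intro k
    simp only [hH, sy]
    by_cases hk : k % 2 = 0
    · simp only [hk, if_true]
      exact hF _
    · simp only [hk, if_false]
      exact an_swap (hF _)
  have hHord : ∀ k, FinOrd (H k) := by
    intro k
    simp only [hH, sy]
    by_cases hk : k % 2 = 0
    · simp only [hk, if_true]
      exact h1 _
    · simp only [hk, if_false]
      exact h2 _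
  set Sp : Set ℂ := ⋃ k, {x | (∃ a b, H k a b ≠ 0) ∧ ∀ y, H k x y = 0} with hSp
  have hSpc : Sp.Countable := by
    refine countable_iUnion fun k => ?_
    by_cases hne : ∃ a b, H k a b ≠ 0
    · obtain ⟨a, b, hab⟩ := hne
      refine (zeros_countable (slice2 (F := fun x z => H k z x) (an_swap (hHan k)) b)
        ⟨a, hab⟩).mono ?_
      exact fun x hx => hx.2 b
    · convert countable_empty using 1
      ext x
      simp only [Set.mem_ofPred_eq, mem_empty_iff_false, iff_false, not_and]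
      exact fun h => absurd h hne
  set K : Set ℂ := A ∪ Sp with hK
  have hKc : K.Countable := hA.union hSpc
  have hKc' : Countable K := hKc.to_subtype
  have hKne : ∀ x, x ∉ K → ∀ k, (∃ a b, H k a b ≠ 0) → ∃ y, H k x y ≠ 0 := by
    intro x hx k hne
    by_contra hcon
    push Not at hcon
    exact hx (Or.inr (mem_iUnion.2 ⟨k, hne, hcon⟩))
  set root : Pc := ⟨Set.univ, fun t _ => t, isOpen_univ, isPreconnected_univ, univ_nonempty,
    fun _ _ _ => analyticAt_id⟩ with hroot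
  obtain ⟨B, I, hB, hI0, hIs, hIj, hIt, hIg⟩ := engine
    (ι := ℕ × ℕ)
    (τ := (Σ j : ℕ, (Fin (n j) → ℕ ⊕ K)) ⊕ ((ℕ ⊕ K) × (ℕ ⊕ K))) root 0 (fun _ _ _ _ => rfl)
    (fun ki x z => H ki.1 (x ki.2) z)
    (fun ki => regG (an_toFin (hHan ki.1)) (hHord ki.1).toFin K (fun _ => Sum.inl ki.2))
    (Sum.elim (fun j x => (fun a => ev K x (j.2 a)) ∈ R j.1)
      (fun ab x => ev K x ab.1 = ev K x ab.2)) (by
      rintro (j | ab) p
      · exact test_rel (hR j.1) K j.2 p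
      · exact test_eq K ab.1 ab.2 p)
  refine ⟨B ∪ K, hB.union hKc, ?_⟩
  -- the states
  set St : ℂ → ℂ → ℕ → (ℕ → ℂ) → (ℕ → ℂ) → Prop := fun t t' k x x' =>
    I t t' k x x' ∧ (∀ i, Cp F K t (x i)) ∧ ∀ i, Cp F K t' (x' i) with hSt
  have hSts : ∀ t t' k x x', St t t' k x x' → St t' t k x' x :=
    fun t t' k x x' h => ⟨hIs _ _ _ _ _ h.1, h.2.2, h.2.1⟩
  have hstep : ∀ t t', t ∉ B → t' ∉ B → t ∉ K → t' ∉ K → ∀ k x x', St t t' k x x' →
      ∀ i z, z ∉ K → Linked F (x i) z →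
      ∃ k₁ x₁ x₁', St t t' k₁ x₁ x₁' ∧ (∀ i, ∃ j, x₁ j = x i ∧ x₁' j = x' i) ∧
        ∃ j, x₁ j = z := by
    intro t t' ht ht' htK htK' k x x' hs i z hzK hlink
    have hj := hIj _ _ _ _ _ hs.1
    have hj' := hIj _ _ _ _ _ (hIs _ _ _ _ _ hs.1)
    have hxi : x i ∉ K := (hs.2.1 i).notMem htK
    have hxi' : x' i ∉ K := (hs.2.2 i).notMem htK'
    have hle : ∀ (z z' : ℂ) (i : ℕ), ∃ j, Function.update x (k + 1) z j = x i ∧
        Function.update x' (k + 1) z' j = x' i := by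
      intro z z' i
      by_cases h : i = k + 1
      · refine ⟨0, ?_⟩
        rw [Function.update_of_ne (by omega), Function.update_of_ne (by omega), h]
        exact ⟨(hj _ (by omega)).symm, (hj' _ (by omega)).symm⟩
      · exact ⟨i, by rw [Function.update_of_ne h], by rw [Function.update_of_ne h]⟩
    have hupd : ∀ (t : ℂ) (x : ℕ → ℂ), (∀ i, Cp F K t (x i)) → ∀ z,
        Cp F K t z → ∀ i, Cp F K t (Function.update x (k + 1) z i) := by
      intro t x hx z hz i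
      by_cases h : i = k + 1
      · rw [h, Function.update_self]
        exact hz
      · rw [Function.update_of_ne h]
        exact hx i
    rcases linked_iff.1 hlink with heq | ⟨l, hne, hz⟩
    · exact ⟨k, x, x', hs, fun i => ⟨i, rfl, rfl⟩, i, heq⟩
    · obtain ⟨z', -, hz', hI'⟩ := hIg t t' ht ht' k x x' hs.1 ⟨l, i⟩ z (hKne _ hxi l hne) hz
      have hz'K : z' ∉ K := by
        intro hz'K
        have h3 : Function.update x (k + 1) z (k + 1) = z' :=
          hIt t' t ht' ht _ _ _ (hIs _ _ _ _ _ hI')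
            (Sum.inr (Sum.inl (k + 1), Sum.inr ⟨z', hz'K⟩)) (Function.update_self _ _ _)
        have h4 : z = z' := (Function.update_self (k + 1) z x).symm.trans h3
        apply hzK
        rw [h4]
        exact hz'K
      refine ⟨k + 1, Function.update x (k + 1) z, Function.update x' (k + 1) z', ⟨hI', ?_, ?_⟩, hle _ _,
        k + 1, Function.update_self _ _ _⟩
      · exact hupd t x hs.2.1 z ((hs.2.1 i).trans (Relation.ReflTransGen.single
          ⟨hxi, hzK, hlink⟩))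
      · exact hupd t' x' hs.2.2 z' ((hs.2.2 i).trans (Relation.ReflTransGen.single
          ⟨hxi', hz'K, linked_iff.2 (Or.inr ⟨l, hne, hz'⟩)⟩))
  -- every element of the component can be reached
  have hreach : ∀ t t', t ∉ B → t' ∉ B → t ∉ K → t' ∉ K → ∀ z, Cp F K t z →
      ∀ k x x', St t t' k x x' → (∃ j, x j = t ∧ x' j = t') →
      ∃ k₁ x₁ x₁', St t t' k₁ x₁ x₁' ∧ (∀ i, ∃ j, x₁ j = x i ∧ x₁' j = x' i) ∧
        ∃ j, x₁ j = z := by
    intro t t' ht ht' htK htK' z hz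
    induction hz with
    | refl =>
      rintro k x x' hs ⟨j, hj, -⟩
      exact ⟨k, x, x', hs, fun i => ⟨i, rfl, rfl⟩, j, hj⟩
    | @tail y z hy hyz ih =>
      intro k x x' hs hle
      obtain ⟨k₁, x₁, x₁', h1, h2, i, h3⟩ := ih k x x' hs hle
      obtain ⟨k₂, x₂, x₂', h4, h5, h6⟩ := hstep t t' ht ht' htK htK' k₁ x₁ x₁' h1 i z hyz.2.1
        (by rw [h3]; exact hyz.2.2)
      refine ⟨k₂, x₂, x₂', h4, ?_, h6⟩
      intro i
      obtain ⟨j, h7, h8⟩ := h2 i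
      obtain ⟨j', h9, h10⟩ := h5 j
      exact ⟨j', h9.trans h7, h10.trans h8⟩
  -- components are countable
  have hcomp : ∀ t, t ∉ K → {z | Cp F K t z}.Countable := by
    intro t htK
    refine (cl_countable (m := fun _ => 1) (F := fun k y z => H k (y 0) z)
      (fun k => an_toFin (hHan k)) (countable_singleton t)).mono ?_
    intro z hz
    simp only [Set.mem_ofPred_eq] at hz ⊢
    induction hz with
    | refl => exact Cl.base rfl
    | @tail y z hy hyz ih =>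
      rcases linked_iff.1 hyz.2.2 with heq | ⟨l, hne, hz⟩
      · rw [← heq]
        exact ih
      · exact Cl.zero (F := fun k (y : Fin 1 → ℂ) z => H k (y 0) z) (k := l) (y := fun _ => y)
          (fun _ => ih) (hKne y hyz.1 l hne) hz
  intro t t' htBK htBK'
  have ht : t ∉ B := fun h => htBK (Or.inl h)
  have ht' : t' ∉ B := fun h => htBK' (Or.inl h)
  have htK : t ∉ K := fun h => htBK (Or.inr h)
  have htK' : t' ∉ K := fun h => htBK' (Or.inr h)
  have hs₀ : St t t' 0 (fun _ => t) (fun _ => t') :=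
    ⟨hI0 t (mem_univ _) t' (mem_univ _), fun _ => Relation.ReflTransGen.refl,
      fun _ => Relation.ReflTransGen.refl⟩
  have hc1 : Countable {z // Cp F K t z} := (hcomp t htK).to_subtype
  have hc2 : Countable {z // Cp F K t' z} := (hcomp t' htK').to_subtype
  obtain ⟨c, hc0, hcmono, hcD⟩ := exists_chain
    (S := {s : ℕ × (ℕ → ℂ) × (ℕ → ℂ) // St t t' s.1 s.2.1 s.2.2 ∧
      ∃ j, s.2.1 j = t ∧ s.2.2 j = t'})
    (fun s s' => ∀ i, ∃ j, s'.1.2.1 j = s.1.2.1 i ∧ s'.1.2.2 j = s.1.2.2 i)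
    (fun s i => ⟨i, rfl, rfl⟩)
    (fun s s' s'' h h' i => by
      obtain ⟨j, h1, h2⟩ := h i
      obtain ⟨j', h3, h4⟩ := h' j
      exact ⟨j', h3.trans h1, h4.trans h2⟩)
    (ι := {z // Cp F K t z} ⊕ {z // Cp F K t' z})
    (Sum.elim (fun z s => ∃ j, s.1.2.1 j = z) (fun z s => ∃ j, s.1.2.2 j = z)) (by
      rintro (z | z) s
      · obtain ⟨k₁, x₁, x₁', h1, h2, h3⟩ := hreach t t' ht ht' htK htK' z.1 z.2
          s.1.1 s.1.2.1 s.1.2.2 s.2.1 s.2.2
        refine ⟨⟨(k₁, x₁, x₁'), h1, ?_⟩, h2, h3⟩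
        obtain ⟨j, h4, h5⟩ := s.2.2
        obtain ⟨j', h6, h7⟩ := h2 j
        exact ⟨j', h6.trans h4, h7.trans h5⟩
      · obtain ⟨k₁, x₁, x₁', h1, h2, h3⟩ := hreach t' t ht' ht htK' htK z.1 z.2
          s.1.1 s.1.2.2 s.1.2.1 (hSts _ _ _ _ _ s.2.1) (by
            obtain ⟨j, h4, h5⟩ := s.2.2
            exact ⟨j, h5, h4⟩)
        refine ⟨⟨(k₁, x₁', x₁), hSts _ _ _ _ _ h1, ?_⟩, ?_, h3⟩
        · obtain ⟨j, h4, h5⟩ := s.2.2
          obtain ⟨j', h6, h7⟩ := h2 j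
          exact ⟨j', h7.trans h4, h6.trans h5⟩
        · intro i
          obtain ⟨j', h6, h7⟩ := h2 i
          exact ⟨j', h7, h6⟩)
    ⟨(0, fun _ => t, fun _ => t'), hs₀, 0, rfl, rfl⟩
  set G : ℂ → ℂ → Prop := fun a b => ∃ (N : ℕ) (e : ℕ ⊕ K), ev K (c N).1.2.1 e = a ∧
    ev K (c N).1.2.2 e = b with hG
  have hfin : ∀ (l : ℕ) (v w : Fin l → ℂ), (∀ a, G (v a) (w a)) → ∃ (N : ℕ)
      (ι : Fin l → ℕ ⊕ K), (fun a => ev K (c N).1.2.1 (ι a)) = v ∧
        (fun a => ev K (c N).1.2.2 (ι a)) = w := by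
    intro l v w h
    choose N e h1 h2 using h
    have h3 : ∀ a, ∃ e' : ℕ ⊕ K, ev K (c (Finset.univ.sup N)).1.2.1 e' = v a ∧
        ev K (c (Finset.univ.sup N)).1.2.2 e' = w a := by
      intro a
      have h4 := hcmono (N a) (Finset.univ.sup N) (Finset.le_sup (Finset.mem_univ a))
      have h5 := h1 a
      have h6 := h2 a
      generalize e a = u at h5 h6
      rcases u with i | k
      · obtain ⟨j, h7, h8⟩ := h4 i
        exact ⟨Sum.inl j, h7.trans h5, h8.trans h6⟩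
      · exact ⟨Sum.inr k, h5, h6⟩
    choose ι h4 h5 using h3
    exact ⟨_, ι, funext h4, funext h5⟩
  have hrel : ∀ j (v w : Fin (n j) → ℂ), (∀ a, G (v a) (w a)) → (v ∈ R j ↔ w ∈ R j) := by
    intro j v w h
    obtain ⟨N, ι, rfl, rfl⟩ := hfin _ v w h
    exact ⟨hIt t t' ht ht' _ _ _ (c N).2.1.1 (Sum.inl ⟨j, ι⟩),
      hIt t' t ht' ht _ _ _ (hIs _ _ _ _ _ (c N).2.1.1) (Sum.inl ⟨j, ι⟩)⟩
  have heq : ∀ a b a' b', G a b → G a' b' → (a = a' ↔ b = b') := by
    intro a b a' b' h h'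
    obtain ⟨N, ι, h1, h2⟩ := hfin 2 ![a, a'] ![b, b'] (by
      intro i
      fin_cases i
      · exact h
      · exact h')
    have e1 := congrFun h1 0
    have e2 := congrFun h1 1
    have e3 := congrFun h2 0
    have e4 := congrFun h2 1
    simp only [Matrix.cons_val_zero, Matrix.cons_val_one] at e1 e2 e3 e4
    rw [← e1, ← e2, ← e3, ← e4]
    exact ⟨hIt t t' ht ht' _ _ _ (c N).2.1.1 (Sum.inr (ι 0, ι 1)),
      hIt t' t ht' ht _ _ _ (hIs _ _ _ _ _ (c N).2.1.1) (Sum.inr (ι 0, ι 1))⟩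
  have hex : ∀ z, Cp F K t z → ∃ w, Cp F K t' w ∧ G z w := by
    intro z hz
    obtain ⟨N, e, he⟩ := hcD (Sum.inl ⟨z, hz⟩)
    exact ⟨_, (c N).2.1.2.2 e, N, Sum.inl e, he, rfl⟩
  have hex' : ∀ w, Cp F K t' w → ∃ z, Cp F K t z ∧ G z w := by
    intro w hw
    obtain ⟨N, e, he⟩ := hcD (Sum.inr ⟨w, hw⟩)
    exact ⟨_, (c N).2.1.2.1 e, N, Sum.inl e, rfl, he⟩
  choose! f hf hfG using hex
  choose! f' hf' hfG' using hex'
  set S : Set ℂ := {z | Cp F K t z} with hS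
  set S' : Set ℂ := {z | Cp F K t' z} with hS'
  have hd : ∀ z, z ∈ S → z ∈ S' → S = S' := by
    intro z hz hz'
    ext w
    exact ⟨fun hw => Cp.trans hz' (Cp.trans (Cp.symm hz) hw),
      fun hw => Cp.trans hz (Cp.trans (Cp.symm hz') hw)⟩
  have e1 : ∀ z ∈ S, f' (f z) = z := fun z hz =>
    (heq _ _ _ _ (hfG' _ (hf z hz)) (hfG z hz)).2 rfl
  have e2 : ∀ z ∈ S', f (f' z) = z := fun z hz =>
    (heq _ _ _ _ (hfG _ (hf' z hz)) (hfG' z hz)).1 rfl
  set σ : Equiv.Perm ℂ := ⟨swp S S' f f', swp S' S f' f,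
    swp_inv hf hf' e1 e2 hd, swp_inv hf' hf e2 e1 (fun z h h' => (hd z h' h).symm)⟩ with hσ
  have hSK : ∀ z ∈ K, z ∉ S := fun z hz h => (Cp.notMem htK h) hz
  have hSK' : ∀ z ∈ K, z ∉ S' := fun z hz h => (Cp.notMem htK' h) hz
  have hKG : ∀ c₀ ∈ K, G c₀ c₀ := fun c₀ hc₀ => ⟨0, Sum.inr ⟨c₀, hc₀⟩, rfl, rfl⟩
  have hguard : ∀ j, ∀ v ∈ R j, ∀ a b, v a ∉ K → v b ∉ K →
      (v a ∈ S ↔ v b ∈ S) ∧ (v a ∈ S' ↔ v b ∈ S') := by
    intro j v hv a b ha hb
    have h1 : Cp F K (v a) (v b) := Relation.ReflTransGen.single ⟨ha, hb, hL j v hv a b⟩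
    exact ⟨⟨fun h => Cp.trans h h1, fun h => Cp.trans h h1.symm⟩,
      ⟨fun h => Cp.trans h h1, fun h => Cp.trans h h1.symm⟩⟩
  refine ⟨σ, ?_, ?_, ?_⟩
  · intro a ha
    show swp S S' f f' a = a
    unfold swp
    rw [if_neg (hSK a (Or.inl ha)), if_neg (hSK' a (Or.inl ha))]
  · have htS : t ∈ S := Relation.ReflTransGen.refl
    show swp S S' f f' t = t'
    unfold swp
    rw [if_pos htS]
    have h3 : G t t' := by
      obtain ⟨j, h4, h5⟩ := (c 0).2.2
      exact ⟨0, Sum.inl j, h4, h5⟩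
    exact (heq _ _ _ _ (hfG t htS) h3).1 rfl
  · intro j v
    constructor
    · intro hv
      exact swp_rel hSK hSK' hKG hfG hfG' (hrel j) (hguard j) hv
    · intro hv
      have h3 := swp_rel (G := fun a b => G b a) (f := f') (f' := f) hSK' hSK hKG hfG' hfG
        (fun v w h => (hrel j w v h).symm) (fun v hv a b ha hb => (hguard j v hv a b ha hb).symm)
        hv
      have h4 : (fun a => swp S' S f' f (σ (v a))) = v := funext fun a =>
        swp_inv hf hf' e1 e2 hd (v a)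
      rw [h4] at h3
      exact h3

end Pool.Agent.TH735.BF
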